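import Pool.Agent.V8H41.TF.Final

set_option autoImplicit false

namespace Pool.Agent.V8H41.TF

open Pool.Agent.N606.SI Filter

/-- The asymptotic form of `backward`. -/
theorem backward' {A : Set ℕ} {K : ℕ} (hA : ∃ x₀ : ℕ, ∀ x ≥ x₀, ∃ n ∈ A, x ≤ n ∧ n ≤ x ^ K)
    (h : ∀ β C : ℕ, 1 ≤ β → ∃ a b n₀ : ℕ, ∀ n ∈ A, n₀ ≤ n → ∀ s : ℕ,
      HasTable β n ⌊(n : ℝ) / Real.log n ^ a⌋₊ ⌊(n : ℝ) / Real.log n ^ (2 * a)⌋₊
        (C * ⌊(n : ℝ) / Real.log n ^ (2 * a)⌋₊) s →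
      (n : ℝ) ^ 3 ≤ s * Real.log n ^ b)
    (T : ℕ → ℕ) (hT : ∀ N, 1 ≤ T N) : Tradeoff Set.univ T := by
  intro β C hβ
  obtain ⟨a, b, n₀, hn₀⟩ := h (2 * β) (3 * (4 * C + 60)) (by omega)
  obtain ⟨x₀, hx₀⟩ := hA
  set J : ℕ := 2 * K + 2 with hJ
  set D : ℝ := 8 + 157440 * β * (J : ℝ) ^ (b + 2 * a) + 5 * β + 2 * (J : ℝ) ^ (2 * a) with hD
  obtain ⟨m₁, hm₁⟩ := log_big D (2 * a)
  refine ⟨b + 2 * a + 2, m₁ + n₀ + x₀ + 4, ?_⟩
  intro m _ hm S hS
  obtain ⟨hL, hLm⟩ := hm₁ m (by omega)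
  have hmpos : (0 : ℝ) < m := by exact_mod_cast (by omega : 0 < m)
  set ℓ := Real.log m with hℓ
  have hβ0 : (1 : ℝ) ≤ β := by exact_mod_cast hβ
  have hJ1 : (1 : ℝ) ≤ J := by
    rw [hJ]; push_cast
    have : (0 : ℝ) ≤ K := Nat.cast_nonneg K
    linarith
  have hq1 : (0 : ℝ) ≤ 157440 * β * (J : ℝ) ^ (b + 2 * a) := by positivity
  have hq2 : (0 : ℝ) ≤ 2 * (J : ℝ) ^ (2 * a) := by positivity
  have hL8 : 8 ≤ ℓ := by linarith
  have hL5 : 5 * (β : ℝ) ≤ ℓ := by linarith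
  have hLc : 157440 * β * (J : ℝ) ^ (b + 2 * a) ≤ ℓ := by linarith
  have hL0 : 0 ≤ ℓ := by linarith
  have hL1 : 1 ≤ ℓ := by linarith
  -- the information bound
  have hinfo := info' hβ (by omega) hS
  have hS1 : 1 ≤ S := by
    rcases Nat.eq_zero_or_pos S with h0 | h0
    · subst h0
      rw [Nat.mul_zero] at hinfo
      omega
    · exact h0
  have hS1' : (1 : ℝ) ≤ S := by exact_mod_cast hS1
  have hMS : (m : ℝ) ≤ 5 * β * ℓ * S := by
    have h1 : m ≤ 2 * (β * (Nat.clog 2 m + 3) * S) + 3 := by omega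
    have h2 : (m : ℝ) ≤ 2 * (β * ((Nat.clog 2 m + 3 : ℕ) : ℝ) * S) + 3 := by exact_mod_cast h1
    have h3 := clog_le hL8
    have h4 : β * ((Nat.clog 2 m + 3 : ℕ) : ℝ) * S ≤ β * (2 * ℓ) * S := by gcongr
    have h5 : 3 ≤ β * ℓ * S := by
      calc (3 : ℝ) ≤ 1 * 8 * 1 := by norm_num
        _ ≤ β * ℓ * S := by gcongr
    calc (m : ℝ) ≤ 2 * (β * ((Nat.clog 2 m + 3 : ℕ) : ℝ) * S) + 3 := h2
      _ ≤ 2 * (β * (2 * ℓ) * S) + β * ℓ * S := by gcongr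
      _ = 5 * β * ℓ * S := by ring
  by_cases hTM : T m ≤ m
  · have hmm : m ≤ m ^ 2 := Nat.le_self_pow (by norm_num) m
    obtain ⟨n, hnA, hn1, hn2⟩ := hx₀ (m ^ 2) (by omega)
    rw [← pow_mul] at hn2
    have hmn : m ≤ n := hmm.trans hn1
    have hn0 : (0 : ℝ) < n := by exact_mod_cast (by omega : 0 < n)
    set L := Real.log n with hLn
    have hLJ : L ≤ J * ℓ := by
      have h2 : (n : ℝ) ≤ (m : ℝ) ^ (2 * K) := by exact_mod_cast hn2
      have h3 := Real.log_le_log hn0 h2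
      rw [Real.log_pow] at h3
      refine h3.trans ?_
      rw [hJ]; push_cast
      have : (2 : ℝ) * K ≤ 2 * K + 2 := by linarith
      gcongr
    have hLℓ : ℓ ≤ L := Real.log_le_log hmpos (by exact_mod_cast hmn)
    have hLpos : 0 < L := by linarith
    have hLJa : L ^ (2 * a) ≤ (J : ℝ) ^ (2 * a) * ℓ ^ (2 * a) := by
      rw [← mul_pow]
      gcongr
    set x : ℝ := (n : ℝ) / L ^ (2 * a) with hx
    set k := ⌊(n : ℝ) / L ^ a⌋₊ with hk
    set t := ⌊x⌋₊ with ht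
    have hxm : 2 * (m : ℝ) ≤ x := by
      rw [hx, le_div_iff₀ (by positivity)]
      have h1 : 2 * (J : ℝ) ^ (2 * a) * ℓ ^ (2 * a) ≤ m := by
        refine le_trans ?_ hLm
        have : 2 * (J : ℝ) ^ (2 * a) ≤ D := by
          rw [hD]; nlinarith
        gcongr
      calc 2 * (m : ℝ) * L ^ (2 * a) ≤ 2 * (m : ℝ) * ((J : ℝ) ^ (2 * a) * ℓ ^ (2 * a)) := by
            gcongr
        _ = m * (2 * (J : ℝ) ^ (2 * a) * ℓ ^ (2 * a)) := by ring
        _ ≤ m * m := by gcongr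
        _ = (m : ℝ) ^ 2 := by ring
        _ ≤ n := by exact_mod_cast hn1
    have hm4 : (4 : ℝ) ≤ m := by exact_mod_cast (by omega : 4 ≤ m)
    have hx2 : 2 ≤ x := by linarith
    have ht2 : x / 2 ≤ t := by
      have := Nat.lt_floor_add_one x
      rw [← ht] at this
      linarith
    have ht1 : (t : ℝ) ≤ x := Nat.floor_le (by linarith)
    have hmt : m ≤ t := by
      have : (m : ℝ) ≤ t := by linarith
      exact_mod_cast this
    have htn : t ≤ n := by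
      have h1 : x ≤ n := by
        rw [hx]
        exact div_le_self hn0.le (one_le_pow₀ (by linarith))
      have : (t : ℝ) ≤ n := ht1.trans h1
      exact_mod_cast this
    obtain ⟨S', hS', hbound⟩ := transfer (T₁ := t) (N := n * (n + 1)) hβ (by omega) (hT m)
      (hTM.trans hmt) (by
        calc m * t ≤ n * n := Nat.mul_le_mul hmn htn
          _ ≤ n * (n + 1) := Nat.mul_le_mul_left _ (by omega)
          _ ≤ n * (n + 1) * T m := Nat.le_mul_of_pos_right _ (hT m)) hS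
    have htab := backward (k := k) hβ (by omega) (by omega) hS'
    have hmain := hn₀ n hnA (by omega) S' htab
    have hb' : (S' : ℝ) * t * m ^ 2 ≤ 3280 * ((n : ℝ) * (n + 1)) ^ 2 * T m * (S + m) := by
      exact_mod_cast hbound
    have hN4 : ((n : ℝ) * (n + 1)) ^ 2 ≤ 4 * (n : ℝ) ^ 4 := by
      have h1 : (1 : ℝ) ≤ n := by exact_mod_cast (by omega : 1 ≤ n)
      have h2 : (n : ℝ) * (n + 1) ≤ 2 * (n : ℝ) ^ 2 := by nlinarith
      calc ((n : ℝ) * (n + 1)) ^ 2 ≤ (2 * (n : ℝ) ^ 2) ^ 2 := by gcongr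
        _ = 4 * (n : ℝ) ^ 4 := by ring
    have h1 : (n : ℝ) ^ 3 * (t * m ^ 2) ≤ (n : ℝ) ^ 3 * (13120 * n * T m * (S + m) * L ^ b) := by
      calc (n : ℝ) ^ 3 * (t * m ^ 2) ≤ (S' * L ^ b) * (t * m ^ 2) := by gcongr
        _ = (S' * t * m ^ 2) * L ^ b := by ring
        _ ≤ (3280 * ((n : ℝ) * (n + 1)) ^ 2 * T m * (S + m)) * L ^ b := by gcongr
        _ ≤ (3280 * (4 * (n : ℝ) ^ 4) * T m * (S + m)) * L ^ b := by gcongr
        _ = (n : ℝ) ^ 3 * (13120 * n * T m * (S + m) * L ^ b) := by ring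
    have h2 : (t : ℝ) * m ^ 2 ≤ 13120 * n * T m * (S + m) * L ^ b :=
      le_of_mul_le_mul_left h1 (by positivity)
    have hxL : x * L ^ (2 * a) = n := by rw [hx]; field_simp
    have h3 : (m : ℝ) ^ 2 ≤ 26240 * T m * (S + m) * L ^ (b + 2 * a) := by
      have h4 : x * (m : ℝ) ^ 2 ≤ x * (26240 * T m * (S + m) * L ^ (b + 2 * a)) := by
        calc x * (m : ℝ) ^ 2 = 2 * ((x / 2) * m ^ 2) := by ring
          _ ≤ 2 * ((t : ℝ) * m ^ 2) := by gcongr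
          _ ≤ 2 * (13120 * n * T m * (S + m) * L ^ b) := by gcongr
          _ = 2 * (13120 * (x * L ^ (2 * a)) * T m * (S + m) * L ^ b) := by rw [hxL]
          _ = x * (26240 * T m * (S + m) * L ^ (b + 2 * a)) := by
              rw [pow_add]; ring
      exact le_of_mul_le_mul_left h4 (by linarith)
    have h6 : (S : ℝ) + m ≤ 6 * β * ℓ * S := by
      have : (S : ℝ) ≤ β * ℓ * S := by
        have : 1 ≤ (β : ℝ) * ℓ := by nlinarith
        nlinarith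
      linarith
    have h7 : L ^ (b + 2 * a) ≤ (J : ℝ) ^ (b + 2 * a) * ℓ ^ (b + 2 * a) := by
      rw [← mul_pow]
      gcongr
    calc (m : ℝ) ^ 2 ≤ 26240 * T m * (S + m) * L ^ (b + 2 * a) := h3
      _ ≤ 26240 * T m * (6 * β * ℓ * S) * ((J : ℝ) ^ (b + 2 * a) * ℓ ^ (b + 2 * a)) := by gcongr
      _ = (157440 * β * (J : ℝ) ^ (b + 2 * a)) * (S * T m * ℓ ^ (b + 2 * a + 1)) := by ring
      _ ≤ ℓ * (S * T m * ℓ ^ (b + 2 * a + 1)) := by gcongr
      _ = S * T m * ℓ ^ (b + 2 * a + 2) := by ring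
  · have hTM' : (m : ℝ) ≤ T m := by exact_mod_cast (by omega : m ≤ T m)
    calc (m : ℝ) ^ 2 = m * m := by ring
      _ ≤ T m * (5 * β * ℓ * S) := by gcongr
      _ = (5 * β) * (S * T m * ℓ) := by ring
      _ ≤ ℓ * (S * T m * ℓ) := by gcongr
      _ = S * T m * ℓ ^ 2 := by ring
      _ ≤ S * T m * ℓ ^ (b + 2 * a + 2) := by
          gcongr
          omega

end Pool.Agent.V8H41.TF
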