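import Pool.Agent.N606.SI.Final

set_option autoImplicit false

/-!
# Tables: `n` subsets of a universe with `n` elements
-/

namespace Pool.Agent.V8H41.TF

open Pool.Agent.N606.SI

/-- A data structure for `n` subsets of `{0, …, n - 1}`, with the cells `ι` and words less than `W`:
the content of the memory as a function of the sets, and the adaptive algorithm for the query which
names two of the sets. -/
structure Table (ι : Type) (n W : ℕ) where
  mem : (Fin n → Finset (Fin n)) → ι → Fin W
  query : Fin n → Fin n → Alg ι W (Finset (Fin n))

/-- The intersection of the sets `i` and `j` of the family `F` is listed correctly with at most `p`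
probes. -/
def Right {ι : Type} {n W : ℕ} (D : Table ι n W) (F : Fin n → Finset (Fin n)) (i j : Fin n)
    (p : ℕ) : Prop :=
  (D.query i j).run (D.mem F) = F i ∩ F j ∧ (D.query i j).cost (D.mem F) ≤ p

/-- There is a deterministic structure with `s` cells and words of `β (⌈log₂ n⌉ + 3)` bits which
lists, for all `n` sets with at most `k` elements each, all intersections with at most `t` elements,
with at most `p` probes. -/
def HasTable (β n k t p s : ℕ) : Prop :=
  ∃ D : Table (Fin s) n (words β n),
    ∀ F : Fin n → Finset (Fin n), (∀ i, (F i).card ≤ k) → ∀ i j : Fin n, (F i ∩ F j).card ≤ t →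
      Right D F i j p

open Classical in
/-- The same for randomised structures (the contents of the memory and the queries may depend on
`ω`, which is chosen with the probabilities `P`) which answer every single query (with at most `t`
elements in the intersection) correctly and with at most `p` probes with probability at least
`δ`. -/
def HasRandTable (β n k t p s : ℕ) (δ : ℝ) : Prop :=
  ∃ (Ω : Type) (_ : Fintype Ω) (P : Ω → ℝ) (D : Ω → Table (Fin s) n (words β n)),
    (∀ ω, 0 ≤ P ω) ∧ ∑ ω, P ω = 1 ∧
    ∀ F : Fin n → Finset (Fin n), (∀ i, (F i).card ≤ k) → ∀ i j : Fin n, (F i ∩ F j).card ≤ t →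
      δ ≤ ∑ ω, if Right (D ω) F i j p then P ω else 0

end Pool.Agent.V8H41.TF
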