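import Pool.Agent.V8H41.TF.Param

set_option autoImplicit false

namespace Pool.Agent.V8H41.TF

open Pool.Agent.N606.SI Filter

theorem log_big (D : ℝ) (m : ℕ) : ∃ n₀ : ℕ, ∀ n : ℕ, n₀ ≤ n →
    D ≤ Real.log n ∧ D * Real.log n ^ m ≤ n := by
  have h1 : ∀ᶠ n : ℕ in atTop, D ≤ Real.log n :=
    (Real.tendsto_log_atTop.comp tendsto_natCast_atTop_atTop).eventually_ge_atTop D
  have h2 := (Real.isLittleO_pow_log_id_atTop (n := m)).bound
    (show (0 : ℝ) < 1 / (|D| + 1) by positivity)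
  have h3 : ∀ᶠ n : ℕ in atTop, ‖Real.log (n : ℝ) ^ m‖ ≤ 1 / (|D| + 1) * ‖id (n : ℝ)‖ :=
    tendsto_natCast_atTop_atTop.eventually h2
  obtain ⟨n₀, hn₀⟩ := eventually_atTop.1 (h1.and h3)
  refine ⟨n₀, fun n hn => ⟨(hn₀ n hn).1, ?_⟩⟩
  have h4 := (hn₀ n hn).2
  have hn0 : (0 : ℝ) ≤ n := Nat.cast_nonneg n
  rw [id, Real.norm_eq_abs, Real.norm_eq_abs, abs_of_nonneg hn0] at h4
  have h5 : |Real.log (n : ℝ) ^ m| * (|D| + 1) ≤ n := by
    rw [one_div, inv_mul_eq_div, le_div_iff₀ (by positivity)] at h4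
    exact h4
  calc D * Real.log n ^ m ≤ |D * Real.log n ^ m| := le_abs_self _
    _ = |Real.log (n : ℝ) ^ m| * |D| := by rw [abs_mul, mul_comm]
    _ ≤ |Real.log (n : ℝ) ^ m| * (|D| + 1) := by gcongr; linarith
    _ ≤ n := h5

/-- The conjecture holds with the same exponent of the logarithm for all query times. -/
theorem uniform (h : ∀ T : ℕ → ℕ, (∀ N, 1 ≤ T N) → Tradeoff Set.univ T) (β C : ℕ) (hβ : 1 ≤ β) :
    ∃ c N₀ : ℕ, ∀ N : ℕ, N₀ ≤ N → ∀ T S : ℕ, 1 ≤ T → HasStructure β C N T S →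
      (N : ℝ) ^ 2 ≤ S * T * Real.log N ^ c := by
  classical
  by_contra hcon
  push Not at hcon
  set Bad : ℕ → ℕ → Prop := fun N c => ∃ T : ℕ, 1 ≤ T ∧ ∃ S : ℕ, HasStructure β C N T S ∧
    (S : ℝ) * T * Real.log N ^ c < (N : ℝ) ^ 2 with hBad
  set K : ℕ → ℕ := fun N => Nat.findGreatest (Bad N) N with hK
  set T : ℕ → ℕ := fun N => if h : Bad N (K N) then h.choose else 1 with hT
  have hT1 : ∀ N, 1 ≤ T N := by
    intro N
    by_cases hb : Bad N (K N)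
    · simp only [hT, hb, dif_pos]
      exact hb.choose_spec.1
    · simp only [hT, hb, dif_neg, not_false_eq_true, le_refl]
  obtain ⟨c, N₀, hc⟩ := h T hT1 β C hβ
  obtain ⟨N, hN, T', S', h1, h2, h3⟩ := hcon c (N₀ + c + 3)
  have hbad : Bad N c := ⟨T', h1, S', h2, h3⟩
  have hb : Bad N (K N) := Nat.findGreatest_spec (by omega) hbad
  have hcK : c ≤ K N := Nat.le_findGreatest (by omega) hbad
  have hTN : T N = hb.choose := by simp only [hT, hb, dif_pos]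
  obtain ⟨-, S, hS1, hS2⟩ := hb.choose_spec
  rw [← hTN] at hS1 hS2
  have h4 := hc N (Set.mem_univ _) (by omega) S hS1
  have hlog : 1 ≤ Real.log N := by
    rw [Real.le_log_iff_exp_le (by exact_mod_cast (by omega : 0 < N))]
    have h5 := Real.exp_one_lt_d9
    have h6 : (3 : ℝ) ≤ N := by exact_mod_cast (by omega : 3 ≤ N)
    linarith
  have h5 : (S : ℝ) * T N * Real.log N ^ c ≤ S * T N * Real.log N ^ K N := by
    have := pow_le_pow_right₀ hlog hcK
    gcongr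
  linarith

/-- The asymptotic form of `forward`. -/
theorem forward' {β C c N₀ : ℕ} (hβ : 1 ≤ β)
    (h : ∀ N : ℕ, N₀ ≤ N → ∀ T S : ℕ, 1 ≤ T → HasStructure (β + 4) (20 * C + 40) N T S →
      (N : ℝ) ^ 2 ≤ S * T * Real.log N ^ c) (a : ℕ) (ha : c + 1 ≤ a) (e : ℕ) :
    ∃ n₀ : ℕ, ∀ n : ℕ, n₀ ≤ n → ∀ s : ℕ,
      HasRandTable β n ⌊(n : ℝ) / Real.log n ^ a⌋₊ ⌊(n : ℝ) / Real.log n ^ (2 * a)⌋₊
        (C * ⌊(n : ℝ) / Real.log n ^ (2 * a)⌋₊) s (1 / Real.log n ^ e) →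
      (n : ℝ) ^ 3 ≤ s * Real.log n ^ (4 * a + c + e + 3) := by
  set K₁ : ℝ := 81920000 * 2 ^ c with hK₁
  have hK0 : (81920000 : ℝ) ≤ K₁ := by
    have : (1 : ℝ) ≤ 2 ^ c := one_le_pow₀ (by norm_num)
    linarith
  obtain ⟨n₁, hn₁⟩ := log_big (32 * K₁) (4 * a + c + e + 2)
  refine ⟨n₁ + N₀ + 1, ?_⟩
  intro n hn s hs
  obtain ⟨hL, hnL⟩ := hn₁ n (by omega)
  set L := Real.log n with hLdef
  have hn0 : (0 : ℝ) < n := by exact_mod_cast (by omega : 0 < n)
  have hL1 : 1 ≤ L := by linarith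
  have hL0 : 0 < L := by linarith
  set x : ℝ := (n : ℝ) / L ^ (2 * a) with hx
  set y : ℝ := (n : ℝ) / L ^ a with hy
  set t := ⌊x⌋₊ with ht
  set k := ⌊y⌋₊ with hk
  have hnL' : ∀ m : ℕ, m ≤ 4 * a + c + e + 2 → 32 * K₁ * L ^ m ≤ n := by
    intro m hm
    refine le_trans ?_ hnL
    have := pow_le_pow_right₀ hL1 hm
    gcongr
  have hx0 : 32 * K₁ ≤ x := by
    rw [hx, le_div_iff₀ (by positivity)]
    exact hnL' _ (by omega)
  have hxy : x ≤ y := by
    rw [hx, hy]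
    have := pow_le_pow_right₀ hL1 (show a ≤ 2 * a by omega)
    gcongr
  have hyx : y = x * L ^ a := by
    rw [hx, hy]
    have : L ^ (2 * a) = L ^ a * L ^ a := by rw [← pow_add]; congr 1; ring
    rw [this]
    field_simp
  have hyn : y ≤ n := by
    rw [hy]
    exact div_le_self hn0.le (one_le_pow₀ hL1)
  have hx0' : 0 ≤ x := by linarith
  have hy0' : 0 ≤ y := by linarith
  have ht1 : (t : ℝ) ≤ x := Nat.floor_le hx0'
  have ht2 : x / 2 ≤ t := by
    have := Nat.lt_floor_add_one x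
    rw [← ht] at this
    linarith
  have hk1 : (k : ℝ) ≤ y := Nat.floor_le hy0'
  have hk2 : y / 2 ≤ k := by
    have := Nat.lt_floor_add_one y
    rw [← hk] at this
    linarith
  have ht16 : 16 ≤ t := by
    have : (16 : ℝ) ≤ t := by linarith
    exact_mod_cast this
  have htk : t ≤ k := Nat.floor_le_floor hxy
  have hkn : k ≤ n := by
    have : (k : ℝ) ≤ n := hk1.trans hyn
    exact_mod_cast this
  have hxL : x * L ^ (2 * a) = n := by
    rw [hx]; field_simp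
  have h64 : 64 * k ≤ t ^ 2 := by
    have h1 : 32 * K₁ * L ^ (3 * a) ≤ n := hnL' _ (by omega)
    have h2 : 32 * K₁ * L ^ a ≤ x := by
      have h3 : 32 * K₁ * L ^ a * L ^ (2 * a) ≤ x * L ^ (2 * a) := by
        rw [hxL]
        refine le_trans (le_of_eq ?_) h1
        rw [mul_assoc, ← pow_add]
        congr 2
        ring
      exact le_of_mul_le_mul_right h3 (by positivity)
    have h3 : (64 : ℝ) * k ≤ (t : ℝ) ^ 2 := by
      calc (64 : ℝ) * k ≤ 64 * (x * L ^ a) := by rw [← hyx]; gcongr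
        _ = (1 / 4) * x * (256 * L ^ a) := by ring
        _ ≤ (1 / 4) * x * x := by
            have : 256 * L ^ a ≤ 32 * K₁ * L ^ a := by
              have : (0 : ℝ) ≤ L ^ a := by positivity
              nlinarith
            gcongr
            linarith
        _ = (x / 2) ^ 2 := by ring
        _ ≤ (t : ℝ) ^ 2 := by gcongr
    exact_mod_cast h3
  have hkk : k * k ≤ 2 * (n * t) := by
    have h1 : (k : ℝ) * k ≤ 2 * (n * t) := by
      calc (k : ℝ) * k ≤ y * y := by gcongr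
        _ = n * x := by
            rw [hyx, ← hxL]
            ring
        _ ≤ n * (2 * t) := by gcongr; linarith
        _ = 2 * (n * t) := by ring
    exact_mod_cast h1
  set Dn := ⌈L ^ e⌉₊ with hDn
  have hLe1 : (1 : ℝ) ≤ L ^ e := one_le_pow₀ hL1
  have hDn1 : L ^ e ≤ Dn := Nat.le_ceil _
  have hDn2 : (Dn : ℝ) ≤ 2 * L ^ e := by
    have := Nat.ceil_lt_add_one (show (0 : ℝ) ≤ L ^ e by linarith)
    rw [← hDn] at this
    linarith
  have hDn3 : Dn ≤ n := by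
    have h1 := hnL' e (by omega)
    have h2 : (Dn : ℝ) ≤ n := by
      refine hDn2.trans (le_trans ?_ h1)
      have : (2 : ℝ) ≤ 32 * K₁ := by linarith
      gcongr
    exact_mod_cast h2
  obtain ⟨S, hS, hbound⟩ := forward (Dn := Dn) hβ ht16 htk hkn h64 hkk (by positivity)
    (by
      rw [div_le_one (by positivity)]
      exact hLe1)
    (by
      rw [one_div, inv_mul_eq_div, one_le_div (by positivity)]
      exact hDn1) hDn3 hs
  set N := n * (t / 16) with hN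
  have hnN : n ≤ N := Nat.le_mul_of_pos_right n (by omega)
  have hNn : N ≤ n ^ 2 := by
    rw [sq]
    exact Nat.mul_le_mul_left _ (by omega)
  have hmain := h N (by omega) t S (by omega) hS
  have hN0 : (0 : ℝ) < N := by exact_mod_cast (by omega : 0 < N)
  have ht0 : (0 : ℝ) < t := by exact_mod_cast (by omega : 0 < t)
  have hk0 : (0 : ℝ) < k := by exact_mod_cast (by omega : 0 < k)
  have hlogN : Real.log N ≤ 2 * L := by
    have h2 : (N : ℝ) ≤ (n : ℝ) ^ 2 := by exact_mod_cast hNn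
    have h3 := Real.log_le_log hN0 h2
    rw [Real.log_pow] at h3
    push_cast at h3
    exact h3
  have hlogN0 : 0 ≤ Real.log N := Real.log_natCast_nonneg N
  have hNt : (n : ℝ) * t / 32 ≤ N := by
    have h1 : t ≤ 32 * (t / 16) := by omega
    have h2 : n * t ≤ 32 * N := by
      calc n * t ≤ n * (32 * (t / 16)) := Nat.mul_le_mul_left _ h1
        _ = 32 * N := by rw [hN]; ring
    have h3 : (n : ℝ) * t ≤ 32 * N := by exact_mod_cast h2
    linarith
  set r : ℝ := ((4 * k / t + 17 : ℕ) : ℝ) with hr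
  set M : ℝ := ((2 * Nat.clog 2 n + 1 : ℕ) : ℝ) with hM
  have hr0 : 0 ≤ r := Nat.cast_nonneg _
  have hM0 : 0 ≤ M := Nat.cast_nonneg _
  have hrL : r ≤ 25 * L ^ a := by
    have h1 : ((4 * k / t : ℕ) : ℝ) ≤ (4 * k : ℝ) / t := by
      have := Nat.cast_div_le (α := ℝ) (m := 4 * k) (n := t)
      push_cast at this
      exact this
    have h2 : (4 * k : ℝ) / t ≤ 8 * L ^ a := by
      rw [div_le_iff₀ ht0]
      calc (4 * k : ℝ) ≤ 4 * (x * L ^ a) := by rw [← hyx]; gcongr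
        _ = 8 * L ^ a * (x / 2) := by ring
        _ ≤ 8 * L ^ a * t := by gcongr
    have h3 : (1 : ℝ) ≤ L ^ a := one_le_pow₀ hL1
    rw [hr]
    push_cast
    linarith
  have hML : M ≤ 4 * L := by
    have h1 := clog_le (M := n) (by linarith)
    rw [hM]
    push_cast at h1 ⊢
    linarith
  have hSr : (S : ℝ) ≤ r ^ 2 * M * (Dn * M) * (s + 16 * n ^ 2) + 3 * (N * (N / k)) := by
    have h1 : (S : ℝ) ≤ r ^ 2 * M * (Dn * M) * (s + 16 * n ^ 2) +
        3 * (((N / k : ℕ) : ℝ) * N) := by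
      rw [hr, hM]
      exact_mod_cast hbound
    have h2 : ((N / k : ℕ) : ℝ) ≤ (N : ℝ) / k := Nat.cast_div_le
    have h3 : ((N / k : ℕ) : ℝ) * N ≤ N * (N / k) := by
      rw [mul_comm]
      gcongr
    linarith
  -- the part of the big sets
  have hbig : 3 * ((N : ℝ) * (N / k)) * t * (2 * L) ^ c ≤ (N : ℝ) ^ 2 / 2 := by
    have h1 : 6 * (t : ℝ) * (2 * L) ^ c ≤ k := by
      have h2 : 12 * 2 ^ c * L ^ c ≤ L ^ a := by
        have h3 : L ^ (c + 1) ≤ L ^ a := pow_le_pow_right₀ hL1 ha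
        refine le_trans ?_ h3
        rw [pow_succ, mul_comm (L ^ c)]
        have h4 : 12 * 2 ^ c ≤ L := by linarith
        gcongr
      calc 6 * (t : ℝ) * (2 * L) ^ c ≤ 6 * x * (2 * L) ^ c := by gcongr
        _ = x * (12 * 2 ^ c * L ^ c) / 2 := by rw [mul_pow]; ring
        _ ≤ x * L ^ a / 2 := by gcongr
        _ = y / 2 := by rw [hyx]
        _ ≤ k := hk2
    calc 3 * ((N : ℝ) * (N / k)) * t * (2 * L) ^ c
        = (N : ℝ) ^ 2 / (2 * k) * (6 * t * (2 * L) ^ c) := by field_simp; ring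
      _ ≤ (N : ℝ) ^ 2 / (2 * k) * k := by gcongr
      _ = (N : ℝ) ^ 2 / 2 := by field_simp
  have h5 : (N : ℝ) ^ 2 / 2 ≤ r ^ 2 * M * (Dn * M) * (s + 16 * n ^ 2) * t * (2 * L) ^ c := by
    have h6 : (N : ℝ) ^ 2 ≤ (r ^ 2 * M * (Dn * M) * (s + 16 * n ^ 2) + 3 * (N * (N / k))) * t *
        (2 * L) ^ c := by
      calc (N : ℝ) ^ 2 ≤ S * t * Real.log N ^ c := hmain
        _ ≤ (r ^ 2 * M * (Dn * M) * (s + 16 * n ^ 2) + 3 * (N * (N / k))) * t * (2 * L) ^ c := by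
            gcongr
    have h7 : (r ^ 2 * M * (Dn * M) * (s + 16 * n ^ 2) + 3 * ((N : ℝ) * (N / k))) * t * (2 * L) ^ c =
        r ^ 2 * M * (Dn * M) * (s + 16 * n ^ 2) * t * (2 * L) ^ c +
          3 * (N * (N / k)) * t * (2 * L) ^ c := by ring
    linarith
  have h8 : (n : ℝ) ^ 2 * t ≤ 2048 * (r ^ 2 * M * (Dn * M) * (s + 16 * n ^ 2) * (2 * L) ^ c) := by
    have h9 : ((n : ℝ) * t / 32) ^ 2 ≤ (N : ℝ) ^ 2 := by gcongr
    have h10 : ((n : ℝ) ^ 2 * t) * t ≤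
        (2048 * (r ^ 2 * M * (Dn * M) * (s + 16 * n ^ 2) * (2 * L) ^ c)) * t := by
      calc ((n : ℝ) ^ 2 * t) * t = 1024 * ((n : ℝ) * t / 32) ^ 2 := by ring
        _ ≤ 1024 * (N : ℝ) ^ 2 := by gcongr
        _ = 2048 * ((N : ℝ) ^ 2 / 2) := by ring
        _ ≤ 2048 * (r ^ 2 * M * (Dn * M) * (s + 16 * n ^ 2) * t * (2 * L) ^ c) := by gcongr
        _ = _ := by ring
    exact le_of_mul_le_mul_right h10 ht0
  have h11 : (n : ℝ) ^ 3 ≤ K₁ * L ^ (4 * a + c + e + 2) * (s + 16 * n ^ 2) := by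
    have hs0 : (0 : ℝ) ≤ (s : ℝ) + 16 * n ^ 2 := by positivity
    calc (n : ℝ) ^ 3 = 2 * L ^ (2 * a) * ((n : ℝ) ^ 2 * (x / 2)) := by
          rw [← hxL]; ring
      _ ≤ 2 * L ^ (2 * a) * ((n : ℝ) ^ 2 * t) := by gcongr
      _ ≤ 2 * L ^ (2 * a) * (2048 * (r ^ 2 * M * (Dn * M) * (s + 16 * n ^ 2) * (2 * L) ^ c)) := by gcongr
      _ ≤ 2 * L ^ (2 * a) * (2048 * ((25 * L ^ a) ^ 2 * (4 * L) * (2 * L ^ e * (4 * L)) *
          (s + 16 * n ^ 2) * (2 * L) ^ c)) := by gcongr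
      _ = K₁ * L ^ (4 * a + c + e + 2) * (s + 16 * n ^ 2) := by
          rw [hK₁]
          have e1 : L ^ (4 * a + c + e + 2) =
              L ^ (2 * a) * (L ^ a) ^ 2 * L ^ c * L ^ e * L ^ 2 := by
            rw [← pow_mul, ← pow_add, ← pow_add, ← pow_add, ← pow_add]
            congr 1
            ring
          rw [e1, mul_pow, mul_pow]
          ring
  have h12 : K₁ * L ^ (4 * a + c + e + 2) * (16 * (n : ℝ) ^ 2) ≤ (n : ℝ) ^ 3 / 2 := by
    calc K₁ * L ^ (4 * a + c + e + 2) * (16 * (n : ℝ) ^ 2)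
        = (32 * K₁ * L ^ (4 * a + c + e + 2)) * ((n : ℝ) ^ 2) / 2 := by ring
      _ ≤ (n : ℝ) * ((n : ℝ) ^ 2) / 2 := by gcongr
      _ = (n : ℝ) ^ 3 / 2 := by ring
  have h13 : (n : ℝ) ^ 3 ≤ 2 * K₁ * (L ^ (4 * a + c + e + 2) * s) := by
    have : K₁ * L ^ (4 * a + c + e + 2) * ((s : ℝ) + 16 * n ^ 2) =
      K₁ * (L ^ (4 * a + c + e + 2) * s) +
        K₁ * L ^ (4 * a + c + e + 2) * (16 * (n : ℝ) ^ 2) := by ring
    linarith
  calc (n : ℝ) ^ 3 ≤ 2 * K₁ * (L ^ (4 * a + c + e + 2) * s) := h13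
    _ ≤ L * (L ^ (4 * a + c + e + 2) * s) := by
        have : 2 * K₁ ≤ L := by linarith
        gcongr
    _ = s * L ^ (4 * a + c + e + 3) := by ring

end Pool.Agent.V8H41.TF
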