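import Pool.Agent.V8H41.TF.Rows

set_option autoImplicit false

namespace Pool.Agent.V8H41.TF

open Pool.Agent.N606.SI Finset Alg

/-- The cells of the final structure: the kind of each set and its number among the sets of its kind;
the elements of the sets; the intersections with the big sets; the structure for the rows. -/
abbrev CellF (N b n r M M' X : ℕ) (ι₀ : Type) : Type :=
  (Fin N × Fin 2) ⊕ (SCell (Fin N) N ⊕ (SCell (Fin b × Fin N) (b * N) ⊕ CellR n r M M' X ι₀))

section query
variable {N b n r M M' L X W₀ W : ℕ} {ι₀ : Type}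

/-- read a set -/
noncomputable def rd1 (hN : 0 < N) (i : ℕ) : Alg (CellF N b n r M M' X ι₀) W (Finset (Fin W)) :=
  (readSet hN (md hN i)).embed (fun c => .inr (.inl c)) id

/-- read the intersection with a big set -/
noncomputable def rd2 (hN : 0 < N) (hb : 0 < b) (hbN : 0 < b * N) (x j : ℕ) :
    Alg (CellF N b n r M M' X ι₀) W (Finset (Fin W)) :=
  (readSet hbN (md hb x, md hN j)).embed (fun c => .inr (.inr (.inl c))) id

/-- the intersection of two rows -/
noncomputable def rd3 (hX : 0 < X) (hW₀ : 0 < W₀) (hr : 0 < r) (hM : 0 < M) (hL : 0 < L)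
    (hM' : 0 < M') (hn : 0 < n) (Ds : Fin L → Fin M' → Table ι₀ n W₀) (x y : ℕ) : Alg (CellF N b n r M M' X ι₀) W (Finset (Fin W)) :=
  (queryR hX hW₀ hr hM hL hM' Ds (md hn x) (md hn y)).embed (fun c => .inr (.inr (.inr c))) id

/-- the query algorithm -/
noncomputable def queryF (hN : 0 < N) (hb : 0 < b) (hbN : 0 < b * N) (hX : 0 < X) (hW₀ : 0 < W₀)
    (hr : 0 < r) (hM : 0 < M) (hL : 0 < L) (hM' : 0 < M') (hn : 0 < n)
    (Ds : Fin L → Fin M' → Table ι₀ n W₀) (i j : ℕ) :
    Alg (CellF N b n r M M' X ι₀) W (Finset (Fin W)) :=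
  (probe (.inl (md hN i, 0))).bind fun ki => (probe (.inl (md hN i, 1))).bind fun xi =>
  (probe (.inl (md hN j, 0))).bind fun kj => (probe (.inl (md hN j, 1))).bind fun xj =>
  if (ki : ℕ) = 2 then rd2 hN hb hbN xi j
  else if (kj : ℕ) = 2 then rd2 hN hb hbN xj i
  else (rd3 hX hW₀ hr hM hL hM' hn Ds xi xj).bind fun Z =>
    (if (ki : ℕ) = 0 then rd1 hN i else .out univ).bind fun Y =>
    (if (kj : ℕ) = 0 then rd1 hN j else .out univ).bind fun Y' => .out (Z ∩ Y ∩ Y')

end query

/-- The assignment of the sets which are not big to rows. -/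
theorem exists_rows {N W : ℕ} (F : Family N W) {n t k : ℕ} (ht : 2 ≤ t) (htk : t ≤ k)
    (hn : 2 * (N / (t / 2)) + 1 ≤ n) :
    ∃ row : Fin F.m → ℕ, (∀ i, (F.sets i).card ≤ k → row i < n) ∧
      ∃ A : Fin n → Finset (Fin W), (∀ a, (A a).card ≤ k) ∧
        (∀ i (a : Fin n), t / 2 < (F.sets i).card → (F.sets i).card ≤ k → row i = a →
          A a = F.sets i) ∧
        (∀ i (a : Fin n), (F.sets i).card ≤ t / 2 → row i = a →
          F.sets i ⊆ A a ∧ (A a).card ≤ t) := by
  classical
  set B := t / 2 with hB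
  have hB1 : 1 ≤ B := by omega
  have hB2 : 2 * B ≤ t := by omega
  set w : Fin F.m → ℕ := fun i => if (F.sets i).card ≤ B then (F.sets i).card else 0 with hw
  obtain ⟨f, hf1, hf2⟩ := bins w B hB1 (by
    intro i; simp only [hw]; split_ifs <;> omega)
  have hf : ∀ i, f i ≤ N / B := by
    intro i
    refine (hf1 i).trans (Nat.div_le_div_right ?_)
    refine le_trans (sum_le_sum fun x _ => ?_) F.total.le
    simp only [hw]; split_ifs <;> omega
  set mids : Finset (Fin F.m) := univ.filter fun i => B < (F.sets i).card ∧ (F.sets i).card ≤ k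
    with hmids
  have hmc : mids.card ≤ N / B := by
    rw [Nat.le_div_iff_mul_le (by omega)]
    calc mids.card * B = ∑ i ∈ mids, B := by simp
      _ ≤ ∑ i ∈ mids, (F.sets i).card := sum_le_sum fun i hi => (mem_filter.1 hi).2.1.le
      _ ≤ ∑ i, (F.sets i).card := sum_le_sum_of_subset (subset_univ _)
      _ = N := F.total
  set e : mids ≃ Fin mids.card := mids.equivFin with he
  set row : Fin F.m → ℕ := fun i => if h : i ∈ mids then N / B + 1 + (e ⟨i, h⟩ : ℕ) else f i
    with hrow
  have hrm : ∀ i, i ∈ mids → N / B < row i := by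
    intro i hi
    simp only [hrow, hi, dif_pos]
    omega
  have hrs : ∀ i, i ∉ mids → row i = f i := by
    intro i hi
    simp only [hrow, hi, not_false_eq_true, dif_neg]
  have hinj : ∀ i j, i ∈ mids → j ∈ mids → row i = row j → i = j := by
    intro i j hi hj hij
    simp only [hrow, hi, hj, dif_pos] at hij
    have h1 : e ⟨i, hi⟩ = e ⟨j, hj⟩ := Fin.ext (by omega)
    exact congrArg Subtype.val (e.injective h1)
  have hsm : ∀ i, (F.sets i).card ≤ k → i ∉ mids → (F.sets i).card ≤ B := by
    intro i hi hm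
    by_contra hc
    exact hm (mem_filter.2 ⟨mem_univ _, by omega, hi⟩)
  set A : Fin n → Finset (Fin W) := fun a =>
    (univ.filter fun i => (F.sets i).card ≤ k ∧ row i = (a : ℕ)).biUnion F.sets with hA
  have hmid : ∀ i (a : Fin n), i ∈ mids → row i = a → A a = F.sets i := by
    intro i a hi hia
    have hik := (mem_filter.1 hi).2.2
    have h1 : (univ.filter fun j => (F.sets j).card ≤ k ∧ row j = (a : ℕ)) = {i} := by
      ext j
      simp only [mem_filter, mem_univ, true_and, mem_singleton]
      constructor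
      · rintro ⟨hj, hja⟩
        by_cases hjm : j ∈ mids
        · exact (hinj i j hi hjm (hia.trans hja.symm)).symm
        · exfalso
          have h2 := hrm i hi
          have h3 := hrs j hjm
          have h4 := hf j
          omega
      · rintro rfl
        exact ⟨hik, hia⟩
    simp only [hA, h1, singleton_biUnion]
  have hsmall : ∀ a : Fin n, (∀ i ∈ mids, row i ≠ a) → (A a).card ≤ t := by
    intro a ha
    calc (A a).card ≤ ∑ i ∈ univ.filter (fun i => (F.sets i).card ≤ k ∧ row i = (a : ℕ)),
          (F.sets i).card := card_biUnion_le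
      _ = ∑ i ∈ univ.filter (fun i => (F.sets i).card ≤ k ∧ row i = (a : ℕ)), w i := by
          refine sum_congr rfl fun i hi => ?_
          obtain ⟨h1, h2⟩ := (mem_filter.1 hi).2
          have h3 : i ∉ mids := fun h => ha i h h2
          have h4 := hsm i h1 h3
          simp only [hw, h4, if_true]
      _ ≤ ∑ i ∈ univ.filter (fun i => f i = (a : ℕ)), w i := by
          refine sum_le_sum_of_subset ?_
          intro i hi
          obtain ⟨h1, h2⟩ := (mem_filter.1 hi).2
          have h3 : i ∉ mids := fun h => ha i h h2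
          rw [hrs i h3] at h2
          exact mem_filter.2 ⟨mem_univ _, h2⟩
      _ ≤ 2 * B := hf2 _
      _ ≤ t := hB2
  refine ⟨row, ?_, A, ?_, ?_, ?_⟩
  · intro i hi
    by_cases him : i ∈ mids
    · simp only [hrow, him, dif_pos]
      have := (e ⟨i, him⟩).2
      omega
    · rw [hrs i him]
      have := hf i
      omega
  · intro a
    by_cases h : ∃ i ∈ mids, row i = a
    · obtain ⟨i, hi, hia⟩ := h
      rw [hmid i a hi hia]
      exact (mem_filter.1 hi).2.2
    · push Not at h
      exact (hsmall a h).trans htk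
  · intro i a h1 h2 h3
    exact hmid i a (mem_filter.2 ⟨mem_univ _, h1, h2⟩) h3
  · intro i a h1 h2
    have him : i ∉ mids := fun h => by
      have := (mem_filter.1 h).2.1
      omega
    constructor
    · exact subset_biUnion_of_mem F.sets (mem_filter.2 ⟨mem_univ _, by omega, h2⟩)
    · refine hsmall a ?_
      intro j hj hja
      have h3 := hrm j hj
      rw [← h2, hrs i him] at hja
      have := hf i
      omega

/-- The hash functions for the rows. -/
theorem exists_schemes {W n t k r M : ℕ} (hn : 0 < n) (ht : 0 < t) (hr : r = 4 * k / t + 17)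
    (hM : n * n < 2 ^ M) (h64 : 64 * k ≤ t ^ 2) (hk : k * k ≤ 2 * (n * t))
    (A : Fin n → Finset (Fin W)) (hA : ∀ a, (A a).card ≤ k) :
    ∃ (g : Fin r → Fin M → Fin W → Fin r × Fin n) (R : Fin n → Fin n → Fin r)
      (μ : Fin n → Fin n → Fin M),
      (∀ a b, (R a b : ℕ) = 4 * (A a ∩ A b).card / t + 16) ∧
      (∀ a b, ∀ x ∈ A a ∩ A b, ((g (R a b) (μ a b) x).1 : ℕ) < R a b) ∧
      (∀ a b, 2 * coll (A a) (A b) (g (R a b) (μ a b)) ≤ t) ∧
      (∀ a b ρ, 2 * inPart (A a ∩ A b) (g (R a b) (μ a b)) ρ ≤ t) := by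
  classical
  have hop : ∀ a b, (A a ∩ A b).card ≤ k := fun a b =>
    (card_le_card inter_subset_left).trans (hA a)
  set R : Fin n → Fin n → Fin r := fun a b => ⟨4 * (A a ∩ A b).card / t + 16, by
    have h1 : 4 * (A a ∩ A b).card / t ≤ 4 * k / t :=
      Nat.div_le_div_right (Nat.mul_le_mul_left _ (hop a b))
    omega⟩ with hR
  have hRv : ∀ a b, (R a b : ℕ) = 4 * (A a ∩ A b).card / t + 16 := fun a b => rfl
  have key : ∀ R' : Fin r, ∃ g : Fin M → Fin W → Fin r × Fin n, ∀ d : Fin n × Fin n,
      R d.1 d.2 = R' → ∃ m, (∀ x, ((g m x).1 : ℕ) < R') ∧ 2 * coll (A d.1) (A d.2) (g m) ≤ t ∧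
        ∀ ρ, 2 * inPart (A d.1 ∩ A d.2) (g m) ρ ≤ t := by
    intro R'
    by_cases h0 : 0 < (R' : ℕ)
    · obtain ⟨g, hg1, hg2⟩ := schemes (α := Fin W) (R := (R' : ℕ)) (r := r) (n := n) (t := t)
        (M := M) h0 R'.2.le hn ht (fun d : Fin n × Fin n => A d.1) (fun d => A d.2)
        (univ.filter fun d : Fin n × Fin n => R d.1 d.2 = R')
        (by
          refine lt_of_le_of_lt (card_filter_le _ _) ?_
          rw [card_univ, Fintype.card_prod, Fintype.card_fin]
          exact hM)
        (by
          intro d hd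
          have h1 : (R' : ℕ) = 4 * (A d.1 ∩ A d.2).card / t + 16 := by
            rw [← (mem_filter.1 hd).2]
          have h2 := Nat.lt_div_mul_add (a := 4 * (A d.1 ∩ A d.2).card) (b := t) ht
          rw [h1, Nat.add_mul]
          omega)
        (by
          intro d _
          have := hop d.1 d.2
          omega)
        (by
          intro d hd
          have h1 : 16 ≤ (R' : ℕ) := by
            rw [← (mem_filter.1 hd).2, hRv]
            exact Nat.le_add_left _ _
          calc 8 * ((A d.1).card * (A d.2).card) ≤ 8 * (k * k) :=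
                Nat.mul_le_mul_left _ (Nat.mul_le_mul (hA _) (hA _))
            _ ≤ 8 * (2 * (n * t)) := Nat.mul_le_mul_left _ hk
            _ = 16 * (n * t) := by ring
            _ ≤ R' * (n * t) := Nat.mul_le_mul_right _ h1
            _ = R' * n * t := by ring)
      refine ⟨g, ?_⟩
      intro d hd
      obtain ⟨m, hm⟩ := hg2 d (mem_filter.2 ⟨mem_univ _, hd⟩)
      exact ⟨m, hg1 m, hm⟩
    · refine ⟨fun _ _ => (R', ⟨0, hn⟩), ?_⟩
      intro d hd
      exfalso
      apply h0
      rw [← hd, hRv]
      exact Nat.lt_of_lt_of_le (by norm_num) (Nat.le_add_left 16 _)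
  choose g hg using key
  have hμ : ∀ a b, ∃ m, (∀ x, ((g (R a b) m x).1 : ℕ) < R a b) ∧
      2 * coll (A a) (A b) (g (R a b) m) ≤ t ∧
        ∀ ρ, 2 * inPart (A a ∩ A b) (g (R a b) m) ρ ≤ t := fun a b => hg (R a b) (a, b) rfl
  choose μ hμ' using hμ
  exact ⟨g, R, μ, hRv, fun a b x _ => (hμ' a b).1 x, fun a b => (hμ' a b).2.1,
    fun a b => (hμ' a b).2.2⟩

theorem full {ι₀ : Type} {N n t k C r M M' L X W₀ W b : ℕ} (hN : 0 < N) (hb : b = N / k + 1)
    (hbN : 0 < b * N) (hX : 0 < X) (hW₀ : 0 < W₀) (hr0 : 0 < r) (hM0 : 0 < M) (hL0 : 0 < L)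
    (hM'0 : 0 < M') (hn0 : 0 < n)
    (ht : 2 ≤ t) (htk : t ≤ k) (hr : r = 4 * k / t + 17) (hM : n * n < 2 ^ M)
    (h64 : 64 * k ≤ t ^ 2) (hk : k * k ≤ 2 * (n * t)) (hn : 2 * (N / (t / 2)) + 1 ≤ n)
    (hXs : r * M * n * k ≤ X) (hXW : X < W) (hWW : W₀ ≤ W) (hbW : b * N < W) (hrW : r ≤ W)
    (hMW : M ≤ W) (hLW : L ≤ W) (hM'W : M' ≤ W) (hnW : n ≤ W) (h3W : 3 ≤ W)
    (Ds : Fin L → Fin M' → Table ι₀ n W₀)
    (h₀ : ∀ F : Fin n → Finset (Fin n), (∀ i, (F i).card ≤ k) →
      ∃ τ, ∀ i j : Fin n, (F i ∩ F j).card ≤ t → ∃ q, Right (Ds τ q) F i j (C * t)) :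
    ∃ D : DS (CellF N b n r M M' X ι₀) N W, D.Solves (20 * C + 40) t := by
  classical
  have hW : 0 < W := by omega
  have hk0 : 0 < k := by omega
  have hb0 : 0 < b := by rw [hb]; exact Nat.succ_pos _
  have hbW' : b ≤ W := le_trans (Nat.le_mul_of_pos_right b hN) hbW.le
  have hNW : N < W := lt_of_le_of_lt (Nat.le_mul_of_pos_left N hb0) hbW
  have key : ∀ F : Family N W, ∃ mem : CellF N b n r M M' X ι₀ → Fin W, ∀ i j : Fin F.m,
      (queryF hN hb0 hbN hX hW₀ hr0 hM0 hL0 hM'0 hn0 Ds i j).run mem = F.sets i ∩ F.sets j ∧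
      (queryF hN hb0 hbN hX hW₀ hr0 hM0 hL0 hM'0 hn0 Ds i j).cost mem ≤
        (20 * C + 40) * (t + (F.sets i ∩ F.sets j).card) := by
    intro F
    have hm := F.m_le
    have hsumF : ∑ y : Fin N, (if h : (y : ℕ) < F.m then F.sets ⟨y, h⟩ else ∅).card ≤ N := by
      refine le_trans (le_of_eq ?_) F.total.le
      symm
      refine sum_of_injOn (fun i : Fin F.m => (⟨i, i.2.trans_le hm⟩ : Fin N)) ?_ ?_ ?_ ?_
      · intro i _ j _ hij
        exact Fin.ext (by simpa using hij)
      · intro i _
        exact mem_coe.2 (mem_univ _)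
      · intro y _ hy
        have h1 : ¬ (y : ℕ) < F.m := by
          intro h
          exact hy ⟨⟨y, h⟩, mem_coe.2 (mem_univ _), rfl⟩
        simp only [h1, dif_neg, not_false_eq_true, card_empty]
      · intro i _
        simp only [i.2, dif_pos, Fin.eta]
    obtain ⟨row, hrow, A, hA, hAmid, hAsmall⟩ := exists_rows F ht htk hn
    obtain ⟨g, R, μ, hRv, hg1, hg2, hg3⟩ := exists_schemes (M := M) hn0 (by omega) hr hM h64 hk A hA
    obtain ⟨mR, hmR⟩ := rows hX hXW hW₀ hr0 hM0 hL0 hM'0 hWW hrW hMW hLW hM'W
      hXs Ds h₀ A hA g R μ hg1 hg2 hg3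
    -- the sets
    obtain ⟨m1, hm1⟩ := exists_store (W := W) hN hNW
      (fun y : Fin N => if h : (y : ℕ) < F.m then F.sets ⟨y, h⟩ else ∅) hsumF
    -- the big sets
    set bigs : Finset (Fin F.m) := univ.filter fun i => k < (F.sets i).card with hbigs
    have hbc : bigs.card < b := by
      have h1 : bigs.card ≤ N / k := by
        rw [Nat.le_div_iff_mul_le hk0]
        calc bigs.card * k = ∑ i ∈ bigs, k := by simp
          _ ≤ ∑ i ∈ bigs, (F.sets i).card := sum_le_sum fun i hi => (mem_filter.1 hi).2.le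
          _ ≤ ∑ i, (F.sets i).card := sum_le_sum_of_subset (subset_univ _)
          _ = N := F.total
      omega
    set e : bigs ≃ Fin bigs.card := bigs.equivFin with he
    set rk : Fin F.m → ℕ := fun i => if h : i ∈ bigs then (e ⟨i, h⟩ : ℕ) else 0 with hrk
    set un : Fin b → Option (Fin F.m) := fun x =>
      if h : (x : ℕ) < bigs.card then some (e.symm ⟨x, h⟩ : Fin F.m) else none with hun
    have hrk1 : ∀ i ∈ bigs, rk i < bigs.card := by
      intro i hi
      simp only [hrk, hi, dif_pos]
      exact (e ⟨i, hi⟩).2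
    have hun1 : ∀ i ∈ bigs, un (md hb0 (rk i)) = some i := by
      intro i hi
      have h1 := hrk1 i hi
      have h2 : md hb0 (rk i) = ⟨rk i, h1.trans hbc⟩ := md_eq hb0 _
      have h3 : (⟨rk i, h1⟩ : Fin bigs.card) = e ⟨i, hi⟩ := by
        apply Fin.ext
        simp only [hrk, hi, dif_pos]
      rw [h2]
      simp only [hun, h1, dif_pos]
      rw [h3, Equiv.symm_apply_apply]
    set cap : Fin b → Fin N → Finset (Fin W) := fun x y => match un x with
      | some i => if h : (y : ℕ) < F.m then F.sets i ∩ F.sets ⟨y, h⟩ else ∅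
      | none => ∅ with hcap
    obtain ⟨m2, hm2⟩ := exists_store (W := W) hbN hbW
      (fun q : Fin b × Fin N => cap q.1 q.2) (by
        rw [Fintype.sum_prod_type]
        have h1 : ∀ x : Fin b, ∑ y : Fin N, (cap x y).card ≤ N := by
          intro x
          refine le_trans (sum_le_sum fun y _ => card_le_card ?_) hsumF
          simp only [hcap]
          rcases un x with _ | i
          · exact empty_subset _
          · by_cases h : (y : ℕ) < F.m
            · simp only [h, dif_pos]
              exact inter_subset_right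
            · simp only [h, dif_neg, not_false_eq_true]
              exact subset_rfl
        calc ∑ x : Fin b, ∑ y : Fin N, (cap x y).card ≤ ∑ x : Fin b, N :=
              sum_le_sum fun x _ => h1 x
          _ = b * N := by simp)
    set kind : Fin F.m → ℕ := fun i => if k < (F.sets i).card then 2 else
      if (F.sets i).card ≤ t / 2 then 0 else 1 with hkind
    set pos : Fin F.m → ℕ := fun i => if k < (F.sets i).card then rk i else row i with hpos
    have hkW : ∀ i, kind i < W := by
      intro i; simp only [hkind]; split_ifs <;> omega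
    have hpW : ∀ i, pos i < W := by
      intro i
      simp only [hpos]
      split_ifs with h
      · have := hrk1 i (mem_filter.2 ⟨mem_univ _, h⟩)
        omega
      · have := hrow i (by omega)
        omega
    set mem : CellF N b n r M M' X ι₀ → Fin W := Sum.elim
      (fun q => if h : (q.1 : ℕ) < F.m then
        (if q.2 = 0 then md hW (kind ⟨q.1, h⟩) else md hW (pos ⟨q.1, h⟩)) else md hW 0)
      (Sum.elim m1 (Sum.elim m2 mR)) with hmem
    refine ⟨mem, ?_⟩
    have h10 : (1 : Fin 2) ≠ 0 := by decide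
    have hK : ∀ i : Fin F.m, (mem (.inl (md hN i, 0)) : ℕ) = kind i := by
      intro i
      have him : (i : ℕ) < N := i.2.trans_le hm
      simp only [hmem, Sum.elim_inl, md_val hN him, i.2, dif_pos, if_true, Fin.eta]
      exact md_val hW (hkW i)
    have hP : ∀ i : Fin F.m, (mem (.inl (md hN i, 1)) : ℕ) = pos i := by
      intro i
      have him : (i : ℕ) < N := i.2.trans_le hm
      simp only [hmem, Sum.elim_inl, md_val hN him, i.2, dif_pos, h10, if_false, Fin.eta]
      exact md_val hW (hpW i)
    have hr1 : ∀ i : Fin F.m,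
        (rd1 hN i : Alg (CellF N b n r M M' X ι₀) W _).run mem = F.sets i ∧
        (rd1 hN i : Alg (CellF N b n r M M' X ι₀) W _).cost mem = 2 + (F.sets i).card := by
      intro i
      have him : (i : ℕ) < N := i.2.trans_le hm
      have e0 : ∀ c, id (mem ((fun c => .inr (.inl c)) c)) = m1 c := fun c => rfl
      have e1 := run_embed (fun c => Sum.inr (Sum.inl c)) id mem m1 e0 (readSet hN (md hN i))
      have e2 := cost_embed (fun c => Sum.inr (Sum.inl c)) id mem m1 e0 (readSet hN (md hN i))
      obtain ⟨q1, q2⟩ := hm1 (md hN i)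
      simp only [md_val hN him, i.2, dif_pos, Fin.eta] at q1 q2
      exact ⟨e1.trans q1, e2.trans q2⟩
    have hr2 : ∀ i j : Fin F.m, k < (F.sets i).card →
        (rd2 hN hb0 hbN (rk i) j : Alg (CellF N b n r M M' X ι₀) W _).run mem =
          F.sets i ∩ F.sets j ∧
        (rd2 hN hb0 hbN (rk i) j : Alg (CellF N b n r M M' X ι₀) W _).cost mem =
          2 + (F.sets i ∩ F.sets j).card := by
      intro i j hi
      have hjm : (j : ℕ) < N := j.2.trans_le hm
      have e0 : ∀ c, id (mem ((fun c => .inr (.inr (.inl c))) c)) = m2 c := fun c => rfl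
      have e1 := run_embed (fun c => Sum.inr (Sum.inr (Sum.inl c))) id mem m2 e0
        (readSet hbN (md hb0 (rk i), md hN j))
      have e2 := cost_embed (fun c => Sum.inr (Sum.inr (Sum.inl c))) id mem m2 e0
        (readSet hbN (md hb0 (rk i), md hN j))
      obtain ⟨q1, q2⟩ := hm2 (md hb0 (rk i), md hN j)
      simp only [hcap, hun1 i (mem_filter.2 ⟨mem_univ _, hi⟩), md_val hN hjm, j.2, dif_pos,
        Fin.eta] at q1 q2
      exact ⟨e1.trans q1, e2.trans q2⟩
    have hr3 : ∀ a b' : Fin n, (rd3 hX hW₀ hr0 hM0 hL0 hM'0 hn0 Ds a b' :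
          Alg (CellF N b n r M M' X ι₀) W _).run mem = A a ∩ A b' ∧
        (rd3 hX hW₀ hr0 hM0 hL0 hM'0 hn0 Ds a b' : Alg (CellF N b n r M M' X ι₀) W _).cost mem ≤
          2 + (4 * C + 10) * (A a ∩ A b').card + (16 * C + 19) * t := by
      intro a b'
      have e0 : ∀ c, id (mem ((fun c => .inr (.inr (.inr c))) c)) = mR c := fun c => rfl
      have e1 := run_embed (fun c => Sum.inr (Sum.inr (Sum.inr c))) id mem mR e0
        (queryR hX hW₀ hr0 hM0 hL0 hM'0 Ds (md hn0 a) (md hn0 b'))
      have e2 := cost_embed (fun c => Sum.inr (Sum.inr (Sum.inr c))) id mem mR e0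
        (queryR hX hW₀ hr0 hM0 hL0 hM'0 Ds (md hn0 a) (md hn0 b'))
      rw [md_fin, md_fin] at e1 e2
      obtain ⟨q1, q2⟩ := hmR a b'
      constructor
      · simp only [rd3, md_fin]
        exact e1.trans q1
      · simp only [rd3, md_fin]
        refine e2.le.trans (q2.trans ?_)
        rw [hRv]
        have e3 : 4 * (A a ∩ A b').card / t * t ≤ 4 * (A a ∩ A b').card := Nat.div_mul_le_self _ _
        have e4 : C * t + 2 ≤ (C + 1) * t := by
          have : (C + 1) * t = C * t + t := by ring
          omega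
        calc 2 + (4 * (A a ∩ A b').card / t + 16) * (C * t + 2) + 6 * (A a ∩ A b').card + 3 * t
            ≤ 2 + (4 * (A a ∩ A b').card / t + 16) * ((C + 1) * t) + 6 * (A a ∩ A b').card +
                3 * t := by gcongr
          _ = 2 + (C + 1) * (4 * (A a ∩ A b').card / t * t) + 16 * (C + 1) * t +
                6 * (A a ∩ A b').card + 3 * t := by ring
          _ ≤ 2 + (C + 1) * (4 * (A a ∩ A b').card) + 16 * (C + 1) * t +
                6 * (A a ∩ A b').card + 3 * t := by gcongr
          _ = _ := by ring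
    intro i j
    have h2' : ∀ i, k < (F.sets i).card → kind i = 2 ∧ pos i = rk i := by
      intro i hi; simp only [hkind, hpos, hi, if_true, and_self]
    have h2'' : ∀ i, ¬ k < (F.sets i).card → kind i ≠ 2 ∧ pos i = row i := by
      intro i hi
      simp only [hkind, hpos, hi, if_false, and_true]
      split_ifs <;> omega
    by_cases hi : k < (F.sets i).card
    · obtain ⟨a1, a2⟩ := h2' i hi
      obtain ⟨q1, q2⟩ := hr2 i j hi
      constructor
      · simp only [queryF, run_bind, run_probe, hK, hP, a1, a2, if_true]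
        exact q1
      · simp only [queryF, cost_bind, run_probe, cost_probe, hK, hP, a1, a2, if_true, q2]
        have h3 : (20 * C + 40) * (t + (F.sets i ∩ F.sets j).card) =
          20 * (C * t) + 20 * (C * (F.sets i ∩ F.sets j).card) + 40 * t +
            40 * (F.sets i ∩ F.sets j).card := by ring
        omega
    · obtain ⟨a1, a2⟩ := h2'' i hi
      by_cases hj : k < (F.sets j).card
      · obtain ⟨b1, b2⟩ := h2' j hj
        obtain ⟨q1, q2⟩ := hr2 j i hj
        constructor
        · simp only [queryF, run_bind, run_probe, hK, hP, a1, b1, b2, if_true, if_false]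
          rw [q1, inter_comm]
        · simp only [queryF, cost_bind, run_probe, cost_probe, hK, hP, a1, b1, b2, if_true,
            if_false, q2]
          rw [inter_comm (F.sets j)]
          have h3 : (20 * C + 40) * (t + (F.sets i ∩ F.sets j).card) =
            20 * (C * t) + 20 * (C * (F.sets i ∩ F.sets j).card) + 40 * t +
              40 * (F.sets i ∩ F.sets j).card := by ring
          omega
      · obtain ⟨b1, b2⟩ := h2'' j hj
        have hri := hrow i (by omega)
        have hrj := hrow j (by omega)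
        obtain ⟨q1, q2⟩ := hr3 ⟨row i, hri⟩ ⟨row j, hrj⟩
        simp only at q1 q2
        -- the last step
        have hy : ∀ i : Fin F.m, ¬ k < (F.sets i).card → ∀ (hri : row i < n),
            ((if kind i = 0 then rd1 hN i else .out univ :
              Alg (CellF N b n r M M' X ι₀) W (Finset (Fin W))).cost mem ≤ 2 + t / 2) ∧
            (A ⟨row i, hri⟩ ∩ (if kind i = 0 then rd1 hN i else .out univ :
              Alg (CellF N b n r M M' X ι₀) W (Finset (Fin W))).run mem = F.sets i) ∧
            (kind i = 0 → (A ⟨row i, hri⟩).card ≤ t) ∧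
            (kind i ≠ 0 → A ⟨row i, hri⟩ = F.sets i) := by
          intro i hi hri
          by_cases hs : (F.sets i).card ≤ t / 2
          · have k0 : kind i = 0 := by simp only [hkind, hi, hs, if_true, if_false]
            obtain ⟨s1, s2⟩ := hAsmall i ⟨row i, hri⟩ hs rfl
            obtain ⟨s3, s4⟩ := hr1 i
            simp only [k0, if_true, s3, s4]
            refine ⟨by omega, inter_eq_right.2 s1, fun _ => s2, fun h => absurd rfl h⟩
          · have k0 : kind i = 1 := by simp only [hkind, hi, hs, if_false]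
            have s1 := hAmid i ⟨row i, hri⟩ (by omega) (by omega) rfl
            simp only [k0, one_ne_zero, if_false, run_out, cost_out, inter_univ]
            exact ⟨Nat.zero_le _, s1, fun h => absurd h (by norm_num), fun _ => s1⟩
        obtain ⟨y1, y2, y3, y4⟩ := hy i hi hri
        obtain ⟨z1, z2, z3, z4⟩ := hy j hj hrj
        constructor
        · simp only [queryF, run_bind, run_probe, hK, hP, a1, a2, b1, b2, if_false, run_out, q1]
          rw [← y2, ← z2]
          ext x
          simp only [mem_inter]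
          tauto
        · simp only [queryF, cost_bind, run_probe, cost_probe, hK, hP, a1, a2, b1, b2, if_false,
            cost_out]
          have hop : (A ⟨row i, hri⟩ ∩ A ⟨row j, hrj⟩).card ≤
              t + (F.sets i ∩ F.sets j).card := by
            by_cases c1 : kind i = 0
            · exact ((card_le_card inter_subset_left).trans (y3 c1)).trans (Nat.le_add_right _ _)
            · by_cases c2 : kind j = 0
              · exact ((card_le_card inter_subset_right).trans (z3 c2)).trans
                  (Nat.le_add_right _ _)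
              · rw [y4 c1, z4 c2]
                exact Nat.le_add_left _ _
          have hm2 : (4 * C + 10) * (A ⟨row i, hri⟩ ∩ A ⟨row j, hrj⟩).card ≤
              (4 * C + 10) * (t + (F.sets i ∩ F.sets j).card) := Nat.mul_le_mul_left _ hop
          have h3 : (20 * C + 40) * (t + (F.sets i ∩ F.sets j).card) =
            (4 * C + 10) * (t + (F.sets i ∩ F.sets j).card) + (16 * C + 19) * t + 11 * t +
              (16 * C + 30) * (F.sets i ∩ F.sets j).card := by ring
          omega
  choose mem hmem using key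
  exact ⟨⟨mem, fun i j => queryF hN hb0 hbN hX hW₀ hr0 hM0 hL0 hM'0 hn0 Ds i j⟩, hmem⟩

end Pool.Agent.V8H41.TF
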