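import Mathlib

set_option autoImplicit false

namespace Pool.Agent.V8H41.TF

open Finset

section count
variable {α β : Type} [Fintype α] [Fintype β] [DecidableEq α] [DecidableEq β]

/-- exchange a value of a function with a given value -/
def exch (y : α) : (α → β) × β ≃ (α → β) × β where
  toFun p := (Function.update p.1 y p.2, p.1 y)
  invFun p := (Function.update p.1 y p.2, p.1 y)
  left_inv := by rintro ⟨g, b⟩; simp
  right_inv := by rintro ⟨g, b⟩; simp

theorem count_pair (E : β → β → Prop) [DecidableRel E] (k : ℕ)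
    (hE : ∀ b, (univ.filter fun b' => E b b').card = k) {x y : α} (hxy : x ≠ y) :
    (univ.filter fun g : α → β => E (g x) (g y)).card * Fintype.card β =
      k * Fintype.card (α → β) := by
  have h1 : ∑ p : (α → β) × β, (if E (p.1 x) (p.1 y) then 1 else 0) =
      ∑ p : (α → β) × β, (if E (p.1 x) p.2 then 1 else 0) := by
    rw [← Equiv.sum_comp (exch y) fun p : (α → β) × β => if E (p.1 x) (p.1 y) then 1 else 0]
    refine sum_congr rfl fun p _ => ?_
    simp only [exch, Equiv.coe_fn_mk, Function.update_self, Function.update_of_ne hxy]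
  rw [Fintype.sum_prod_type, Fintype.sum_prod_type] at h1
  have h3 : ∀ g : α → β, (∑ _b : β, if E (g x) (g y) then 1 else 0) =
      Fintype.card β * (if E (g x) (g y) then 1 else 0) := by
    intro g
    rw [sum_const, card_univ, smul_eq_mul]
  have h4 : Fintype.card β * ∑ g : α → β, (if E (g x) (g y) then 1 else 0) =
      ∑ g : α → β, ∑ b : β, if E (g x) b then 1 else 0 := by
    rw [mul_sum, ← h1]
    exact sum_congr rfl fun g _ => (h3 g).symm
  rw [card_filter, mul_comm, h4]
  have h2 : ∀ g : α → β, (∑ b : β, if E (g x) b then 1 else 0) = k := by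
    intro g
    rw [← card_filter]
    exact hE _
  simp only [h2, sum_const, card_univ, smul_eq_mul]
  ring

end count

/-- every requirement is satisfied for one of `M` choices -/
theorem cover {Ω δ : Type} [Fintype Ω] [Nonempty Ω] [DecidableEq δ] (bad : δ → Ω → Prop)
    [∀ d ω, Decidable (bad d ω)] :
    ∀ (M : ℕ) (Q : Finset δ), (∀ d ∈ Q, 2 * (univ.filter fun ω => bad d ω).card ≤ Fintype.card Ω) →
      Q.card < 2 ^ M → ∃ ω : Fin M → Ω, ∀ d ∈ Q, ∃ m, ¬ bad d (ω m) := by
  intro M
  induction M with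
  | zero =>
    intro Q _ hQ
    have : Q = ∅ := by
      rw [← card_eq_zero]; simpa using hQ
    subst this
    exact ⟨fun _ => Classical.arbitrary Ω, fun d hd => by simp at hd⟩
  | succ M ih =>
    intro Q hbad hQ
    have hex : ∃ ω : Ω, 2 * (Q.filter fun d => bad d ω).card ≤ Q.card := by
      by_contra hcon
      push Not at hcon
      have h1 : ∑ ω : Ω, (Q.filter fun d => bad d ω).card =
          ∑ d ∈ Q, (univ.filter fun ω => bad d ω).card := by
        simp only [card_filter]
        exact sum_comm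
      have h2 : ∑ d ∈ Q, 2 * (univ.filter fun ω => bad d ω).card ≤ Q.card * Fintype.card Ω := by
        calc ∑ d ∈ Q, 2 * (univ.filter fun ω => bad d ω).card ≤ ∑ d ∈ Q, Fintype.card Ω :=
              sum_le_sum hbad
          _ = Q.card * Fintype.card Ω := by simp
      have h3 : Fintype.card Ω * Q.card < ∑ ω : Ω, 2 * (Q.filter fun d => bad d ω).card := by
        calc Fintype.card Ω * Q.card = ∑ ω : Ω, Q.card := by simp
          _ < ∑ ω : Ω, 2 * (Q.filter fun d => bad d ω).card :=
            sum_lt_sum_of_nonempty univ_nonempty fun ω _ => hcon ω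
      rw [← mul_sum, h1, mul_sum] at h3
      rw [mul_comm] at h3
      omega
    obtain ⟨ω₀, h0⟩ := hex
    obtain ⟨ω, hω⟩ := ih (Q.filter fun d => bad d ω₀)
      (fun d hd => hbad d (mem_filter.1 hd).1) (by rw [pow_succ] at hQ; omega)
    refine ⟨Fin.cons ω₀ ω, ?_⟩
    intro d hd
    by_cases hb : bad d ω₀
    · obtain ⟨m, hm⟩ := hω d (mem_filter.2 ⟨hd, hb⟩)
      exact ⟨m.succ, by simpa using hm⟩
    · exact ⟨0, by simpa using hb⟩

section hash
variable {α : Type} [Fintype α] [DecidableEq α]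

/-- the number of pairs of different elements with the same value -/
def coll {β : Type} [DecidableEq β] (A B : Finset α) (g : α → β) : ℕ :=
  ((A ×ˢ B).filter fun q => q.1 ≠ q.2 ∧ g q.1 = g q.2).card

/-- the number of elements of a part -/
def inPart {R n : ℕ} (I : Finset α) (g : α → Fin R × Fin n) (ρ : Fin R) : ℕ :=
  (I.filter fun x => (g x).1 = ρ).card

theorem sum_coll {R n : ℕ} (A B : Finset α) :
    (∑ g : α → Fin R × Fin n, coll A B g) * (R * n) ≤
      A.card * B.card * Fintype.card (α → Fin R × Fin n) := by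
  classical
  have h1 : ∑ g : α → Fin R × Fin n, coll A B g =
      ∑ q ∈ A ×ˢ B, (univ.filter fun g : α → Fin R × Fin n =>
        q.1 ≠ q.2 ∧ g q.1 = g q.2).card := by
    simp only [coll, card_filter]
    exact sum_comm
  rw [h1, sum_mul]
  calc ∑ q ∈ A ×ˢ B, (univ.filter fun g : α → Fin R × Fin n =>
        q.1 ≠ q.2 ∧ g q.1 = g q.2).card * (R * n)
      ≤ ∑ q ∈ A ×ˢ B, Fintype.card (α → Fin R × Fin n) := by
        refine sum_le_sum fun q _ => ?_
        by_cases hq : q.1 = q.2
        · simp [hq]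
        · have h2 := count_pair (α := α) (fun b b' : Fin R × Fin n => b = b') 1 (by
            intro b
            rw [filter_eq]
            simp) hq
          rw [Fintype.card_prod, Fintype.card_fin, Fintype.card_fin, one_mul] at h2
          rw [← h2]
          refine Nat.mul_le_mul_right _ (card_le_card ?_)
          intro g hg
          simp only [mem_filter, mem_univ, true_and] at hg ⊢
          exact hg.2
    _ = A.card * B.card * Fintype.card (α → Fin R × Fin n) := by
        rw [sum_const, card_product, smul_eq_mul]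

/-- the number of pairs in the same part -/
def same {R n : ℕ} (I : Finset α) (g : α → Fin R × Fin n) : ℕ :=
  ((I ×ˢ I).filter fun q => (g q.1).1 = (g q.2).1).card

theorem same_eq {R n : ℕ} (I : Finset α) (g : α → Fin R × Fin n) :
    same I g = ∑ ρ, inPart I g ρ ^ 2 := by
  classical
  have h1 : ∀ ρ, inPart I g ρ ^ 2 = ((I ×ˢ I).filter fun q =>
      (g q.1).1 = ρ ∧ (g q.2).1 = ρ).card := by
    intro ρ
    rw [sq, inPart, ← card_product]
    congr 1
    ext q
    simp only [mem_product, mem_filter]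
    tauto
  simp only [h1]
  rw [same, card_filter]
  simp only [card_filter]
  rw [sum_comm]
  refine sum_congr rfl fun q _ => ?_
  by_cases h : (g q.1).1 = (g q.2).1
  · rw [if_pos h, sum_eq_single (g q.1).1]
    · simp [h]
    · intro ρ _ hρ
      rw [if_neg]
      rintro ⟨h2, -⟩
      exact hρ h2.symm
    · intro h2
      exact absurd (mem_univ _) h2
  · rw [if_neg h]
    symm
    apply sum_eq_zero
    intro ρ _
    rw [if_neg]
    rintro ⟨h2, h3⟩
    exact h (h2.trans h3.symm)

theorem sum_inPart {R n : ℕ} (I : Finset α) (g : α → Fin R × Fin n) :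
    ∑ ρ, inPart I g ρ = I.card := by
  classical
  simp only [inPart]
  exact (card_eq_sum_card_fiberwise (f := fun x => (g x).1) (t := univ)
    fun _ _ => mem_coe.2 (mem_univ _)).symm

theorem sum_same {R n : ℕ} (hR : 0 < R) (hn : 0 < n) (I : Finset α) :
    (∑ g : α → Fin R × Fin n, same I g) * R + I.card * Fintype.card (α → Fin R × Fin n) =
      (I.card * R + I.card * I.card) * Fintype.card (α → Fin R × Fin n) := by
  classical
  set G := Fintype.card (α → Fin R × Fin n) with hG
  have h1 : ∑ g : α → Fin R × Fin n, same I g =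
      ∑ q ∈ I ×ˢ I, (univ.filter fun g : α → Fin R × Fin n => (g q.1).1 = (g q.2).1).card := by
    simp only [same, card_filter]
    exact sum_comm
  have h2 : ∀ q : α × α, (univ.filter fun g : α → Fin R × Fin n =>
      (g q.1).1 = (g q.2).1).card * R = if q.1 = q.2 then G * R else G := by
    intro q
    split_ifs with hq
    · simp [hq, hG]
    · have h3 := count_pair (α := α) (fun b b' : Fin R × Fin n => b.1 = b'.1) n (by
        intro b
        have h4 : (univ.filter fun b' : Fin R × Fin n => b.1 = b'.1) =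
            ({b.1} : Finset (Fin R)) ×ˢ univ := by
          ext b'
          simp only [mem_filter, mem_univ, true_and, mem_product, mem_singleton, and_true]
          exact eq_comm
        rw [h4, card_product]
        simp) hq
      rw [Fintype.card_prod, Fintype.card_fin, Fintype.card_fin] at h3
      have h5 : (univ.filter fun g : α → Fin R × Fin n => (g q.1).1 = (g q.2).1).card * R * n =
          G * n := by rw [mul_assoc, h3]; ring
      exact Nat.eq_of_mul_eq_mul_right hn h5
  rw [h1, sum_mul]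
  simp only [h2]
  have h6 : ∑ q ∈ I ×ˢ I, (if q.1 = q.2 then G * R else G) + I.card * G =
      ∑ q ∈ I ×ˢ I, (if q.1 = q.2 then G * R + G else G) := by
    have h7 : I.card * G = ∑ q ∈ I ×ˢ I, (if q.1 = q.2 then G else 0) := by
      rw [sum_product]
      have : ∀ x ∈ I, ∑ y ∈ I, (if x = y then G else 0) = G := by
        intro x hx
        rw [sum_ite_eq]
        simp [hx]
      rw [sum_congr rfl this]
      simp
    rw [h7, ← sum_add_distrib]
    refine sum_congr rfl fun q _ => ?_
    split_ifs <;> simp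
  rw [h6]
  have h8 : ∑ q ∈ I ×ˢ I, (if q.1 = q.2 then G * R + G else G) =
      ∑ q ∈ I ×ˢ I, ((if q.1 = q.2 then G * R else 0) + G) := by
    refine sum_congr rfl fun q _ => ?_
    split_ifs <;> simp
  rw [h8, sum_add_distrib]
  have h9 : ∑ q ∈ I ×ˢ I, (if q.1 = q.2 then G * R else 0) = I.card * (G * R) := by
    rw [sum_product]
    have : ∀ x ∈ I, ∑ y ∈ I, (if x = y then G * R else 0) = G * R := by
      intro x hx
      rw [sum_ite_eq]
      simp [hx]
    rw [sum_congr rfl this]
    simp
  rw [h9]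
  simp only [sum_const, card_product, smul_eq_mul]
  ring

/-- a part with many elements makes the second moment large -/
theorem same_ge {R n t : ℕ} (I : Finset α) (g : α → Fin R × Fin n)
    (hI : 4 * I.card ≤ R * t) (ρ : Fin R) (hρ : t < 2 * inPart I g ρ) :
    (R : ℝ) * t ^ 2 ≤ 16 * (R * same I g - (I.card : ℝ) ^ 2) := by
  have hR : (0 : ℝ) < R := by exact_mod_cast (Fin.pos ρ)
  have h1 : ∑ σ, ((R : ℝ) * inPart I g σ - I.card) ^ 2 =
      R * (R * same I g - (I.card : ℝ) ^ 2) := by
    have h2 : (same I g : ℝ) = ∑ σ, (inPart I g σ : ℝ) ^ 2 := by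
      rw [same_eq]; push_cast; rfl
    have h3 : (I.card : ℝ) = ∑ σ, (inPart I g σ : ℝ) := by
      rw [← sum_inPart I g]; push_cast; rfl
    have h4 : ∀ σ, ((R : ℝ) * inPart I g σ - I.card) ^ 2 =
        (R : ℝ) ^ 2 * (inPart I g σ : ℝ) ^ 2 - 2 * R * I.card * inPart I g σ +
          (I.card : ℝ) ^ 2 := by intro σ; ring
    simp only [h4]
    rw [sum_add_distrib, sum_sub_distrib, ← mul_sum, ← mul_sum, ← h2, ← h3]
    simp only [sum_const, card_univ, Fintype.card_fin, nsmul_eq_mul]
    ring
  have h5 : ((R : ℝ) * inPart I g ρ - I.card) ^ 2 ≤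
      ∑ σ, ((R : ℝ) * inPart I g σ - I.card) ^ 2 :=
    single_le_sum (f := fun σ => ((R : ℝ) * inPart I g σ - I.card) ^ 2)
      (fun σ _ => sq_nonneg _) (mem_univ ρ)
  have h6 : (t : ℝ) < 2 * inPart I g ρ := by exact_mod_cast hρ
  have h7 : 4 * (I.card : ℝ) ≤ R * t := by exact_mod_cast hI
  have h8 : (R : ℝ) * t / 4 ≤ R * inPart I g ρ - I.card := by nlinarith
  have h9 : ((R : ℝ) * t / 4) ^ 2 ≤ (R * inPart I g ρ - I.card) ^ 2 :=
    pow_le_pow_left₀ (by positivity) h8 2
  have h10 : ((R : ℝ) * t / 4) ^ 2 ≤ R * (R * same I g - (I.card : ℝ) ^ 2) := by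
    rw [← h1]; exact h9.trans h5
  have h11 : (R : ℝ) * (R * t ^ 2) ≤ R * (16 * (R * same I g - (I.card : ℝ) ^ 2)) := by
    nlinarith
  exact le_of_mul_le_mul_left h11 hR

theorem bad_parts {R n t : ℕ} (hR : 0 < R) (hn : 0 < n) (ht : 0 < t) (I : Finset α)
    (hI : 4 * I.card ≤ R * t) (hI2 : 64 * I.card ≤ t ^ 2) :
    4 * (univ.filter fun g : α → Fin R × Fin n => ∃ ρ, t < 2 * inPart I g ρ).card ≤
      Fintype.card (α → Fin R × Fin n) := by
  classical
  set G := Fintype.card (α → Fin R × Fin n) with hG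
  set Bd := univ.filter fun g : α → Fin R × Fin n => ∃ ρ, t < 2 * inPart I g ρ with hBd
  have hRr : (0 : ℝ) < R := by exact_mod_cast hR
  have htr : (0 : ℝ) < t := by exact_mod_cast ht
  have h0 : ∀ g : α → Fin R × Fin n, (0 : ℝ) ≤ R * same I g - (I.card : ℝ) ^ 2 := by
    intro g
    have h3 : (I.card : ℝ) = ∑ σ, (inPart I g σ : ℝ) := by
      rw [← sum_inPart I g]; push_cast; rfl
    have h2 : (same I g : ℝ) = ∑ σ, (inPart I g σ : ℝ) ^ 2 := by
      rw [same_eq]; push_cast; rfl
    have h4 := sq_sum_le_card_mul_sum_sq (s := (univ : Finset (Fin R)))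
      (f := fun σ => (inPart I g σ : ℝ))
    rw [card_univ, Fintype.card_fin, ← h3, ← h2] at h4
    linarith
  have h1 : (Bd.card : ℝ) * (R * t ^ 2) ≤
      16 * ∑ g : α → Fin R × Fin n, ((R : ℝ) * same I g - (I.card : ℝ) ^ 2) := by
    calc (Bd.card : ℝ) * (R * t ^ 2) = ∑ g ∈ Bd, ((R : ℝ) * t ^ 2) := by
          rw [sum_const, nsmul_eq_mul]
      _ ≤ ∑ g ∈ Bd, 16 * ((R : ℝ) * same I g - (I.card : ℝ) ^ 2) := by
          refine sum_le_sum fun g hg => ?_
          obtain ⟨ρ, hρ⟩ := (mem_filter.1 hg).2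
          exact same_ge I g hI ρ hρ
      _ ≤ ∑ g, 16 * ((R : ℝ) * same I g - (I.card : ℝ) ^ 2) :=
          sum_le_sum_of_subset_of_nonneg (subset_univ _) fun g _ _ => by
            have := h0 g; linarith
      _ = _ := by rw [← mul_sum]
  have h2 : ∑ g : α → Fin R × Fin n, ((R : ℝ) * same I g - (I.card : ℝ) ^ 2) =
      G * (I.card * R - I.card) := by
    have h3 : ((∑ g : α → Fin R × Fin n, (same I g : ℝ)) * R + I.card * G) =
        (I.card * R + I.card * I.card) * G := by
      have := sum_same (n := n) hR hn I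
      exact_mod_cast this
    rw [sum_sub_distrib, ← mul_sum, sum_const, card_univ, nsmul_eq_mul]
    rw [← hG]
    linear_combination h3
  rw [h2] at h1
  have h64 : 64 * (I.card : ℝ) ≤ (t : ℝ) ^ 2 := by exact_mod_cast hI2
  have h3 : (Bd.card : ℝ) * (R * t ^ 2) ≤ (G : ℝ) / 4 * (R * t ^ 2) := by
    have h4 : (0 : ℝ) ≤ I.card := Nat.cast_nonneg _
    have h5 : (0 : ℝ) ≤ G := Nat.cast_nonneg _
    calc (Bd.card : ℝ) * (R * t ^ 2) ≤ 16 * (G * (I.card * R - I.card)) := h1
      _ ≤ 16 * (G * (I.card * R)) := by gcongr; linarith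
      _ = (G : ℝ) / 4 * (R * (64 * I.card)) := by ring
      _ ≤ (G : ℝ) / 4 * (R * t ^ 2) := by gcongr
  have h6 : (Bd.card : ℝ) ≤ (G : ℝ) / 4 := le_of_mul_le_mul_right h3 (by positivity)
  have h7 : 4 * (Bd.card : ℝ) ≤ G := by linarith
  exact_mod_cast h7

theorem bad_coll {R n t : ℕ} (hR : 0 < R) (hn : 0 < n) (ht : 0 < t) (A B : Finset α)
    (hAB : 8 * (A.card * B.card) ≤ R * n * t) :
    4 * (univ.filter fun g : α → Fin R × Fin n => t < 2 * coll A B g).card ≤
      Fintype.card (α → Fin R × Fin n) := by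
  classical
  set G := Fintype.card (α → Fin R × Fin n) with hG
  set Bd := univ.filter fun g : α → Fin R × Fin n => t < 2 * coll A B g with hBd
  have h1 : Bd.card * t ≤ 2 * ∑ g : α → Fin R × Fin n, coll A B g := by
    calc Bd.card * t = ∑ g ∈ Bd, t := by simp
      _ ≤ ∑ g ∈ Bd, 2 * coll A B g := sum_le_sum fun g hg => (mem_filter.1 hg).2.le
      _ ≤ ∑ g, 2 * coll A B g := sum_le_sum_of_subset (subset_univ _)
      _ = _ := by rw [← mul_sum]
  have h2 := sum_coll (R := R) (n := n) A B
  rw [← hG] at h2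
  have h3 : (4 * Bd.card) * (R * n * t) ≤ G * (R * n * t) := by
    calc (4 * Bd.card) * (R * n * t) = 4 * (R * n) * (Bd.card * t) := by ring
      _ ≤ 4 * (R * n) * (2 * ∑ g : α → Fin R × Fin n, coll A B g) := Nat.mul_le_mul_left _ h1
      _ = 8 * ((∑ g : α → Fin R × Fin n, coll A B g) * (R * n)) := by ring
      _ ≤ 8 * (A.card * B.card * G) := Nat.mul_le_mul_left _ h2
      _ = G * (8 * (A.card * B.card)) := by ring
      _ ≤ G * (R * n * t) := Nat.mul_le_mul_left _ hAB
  exact Nat.le_of_mul_le_mul_right h3 (by positivity)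

/-- Hash functions: for a number of pairs of sets, one of `M` functions to `R` parts with `n` values
each is good. -/
theorem schemes {δ : Type} [DecidableEq δ] {R r n t M : ℕ} (hR : 0 < R) (hRr : R ≤ r) (hn : 0 < n)
    (ht : 0 < t) (A B : δ → Finset α) (Q : Finset δ) (hQ : Q.card < 2 ^ M)
    (h1 : ∀ d ∈ Q, 4 * (A d ∩ B d).card ≤ R * t) (h2 : ∀ d ∈ Q, 64 * (A d ∩ B d).card ≤ t ^ 2)
    (h3 : ∀ d ∈ Q, 8 * ((A d).card * (B d).card) ≤ R * n * t) :
    ∃ g : Fin M → α → Fin r × Fin n, (∀ m x, ((g m x).1 : ℕ) < R) ∧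
      ∀ d ∈ Q, ∃ m, 2 * coll (A d) (B d) (g m) ≤ t ∧ ∀ ρ, 2 * inPart (A d ∩ B d) (g m) ρ ≤ t := by
  classical
  haveI : Nonempty (α → Fin R × Fin n) := ⟨fun _ => (⟨0, hR⟩, ⟨0, hn⟩)⟩
  obtain ⟨ω, hω⟩ := cover (Ω := α → Fin R × Fin n)
    (fun (d : δ) g => (∃ ρ, t < 2 * inPart (A d ∩ B d) g ρ) ∨ t < 2 * coll (A d) (B d) g) M Q
    (by
      intro d hd
      have e1 := bad_parts (n := n) hR hn ht (A d ∩ B d) (h1 d hd) (h2 d hd)
      have e2 := bad_coll (n := n) hR hn ht (A d) (B d) (h3 d hd)
      have e3 := card_union_le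
        (univ.filter fun g : α → Fin R × Fin n => ∃ ρ, t < 2 * inPart (A d ∩ B d) g ρ)
        (univ.filter fun g : α → Fin R × Fin n => t < 2 * coll (A d) (B d) g)
      rw [← filter_or] at e3
      omega) hQ
  refine ⟨fun m x => (Fin.castLE hRr (ω m x).1, (ω m x).2), fun m x => (ω m x).1.2, ?_⟩
  intro d hd
  obtain ⟨m, hm⟩ := hω d hd
  push Not at hm
  refine ⟨m, ?_, ?_⟩
  · refine le_trans (le_of_eq ?_) hm.2
    simp only [coll]
    congr 2
    ext q
    simp only [mem_filter, Prod.ext_iff, Fin.ext_iff, Fin.val_castLE]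
  · intro ρ
    by_cases hρ : (ρ : ℕ) < R
    · refine le_trans (le_of_eq ?_) (hm.1 ⟨ρ, hρ⟩)
      simp only [inPart]
      congr 2
      ext x
      simp only [mem_filter, Fin.ext_iff, Fin.val_castLE]
    · have : inPart (A d ∩ B d)
          (fun x => (Fin.castLE hRr (ω m x).1, (ω m x).2)) ρ = 0 := by
        simp only [inPart, card_eq_zero]
        rw [filter_eq_empty_iff]
        intro x _ hx
        apply hρ
        rw [← hx]
        exact (ω m x).1.2
      rw [this]
      omega

end hash

end Pool.Agent.V8H41.TF
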