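import Pool.Agent.V8H41.TF.Full

set_option autoImplicit false

namespace Pool.Agent.V8H41.TF

open Pool.Agent.N606.SI Finset Alg

theorem words_le {β β' M N : ℕ} (hβ : β ≤ β') (h : M ≤ N) : words β M ≤ words β' N := by
  unfold words
  refine Nat.pow_le_pow_right (by norm_num) (Nat.mul_le_mul hβ ?_)
  have := Nat.clog_mono_right 2 h
  omega

theorem pow_le_words {β N : ℕ} (hβ : 5 ≤ β) : (8 * N) ^ 5 ≤ words β N := by
  have h1 : 8 * N ≤ words 1 N := le_words le_rfl
  calc (8 * N) ^ 5 ≤ (words 1 N) ^ 5 := Nat.pow_le_pow_left h1 5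
    _ = 2 ^ ((Nat.clog 2 N + 3) * 5) := by
        unfold words
        rw [one_mul, ← pow_mul]
    _ ≤ words β N := by
        unfold words
        refine Nat.pow_le_pow_right (by norm_num) ?_
        rw [mul_comm]
        exact Nat.mul_le_mul_right _ hβ

theorem one_sub_pow_le {δ : ℝ} {Dn : ℕ} (hδ0 : 0 ≤ δ) (hδ1 : δ ≤ 1) (hD : 1 ≤ δ * Dn) (m : ℕ) :
    (1 - δ) ^ (Dn * m) ≤ (1 / 2) ^ m := by
  rw [pow_mul]
  refine pow_le_pow_left₀ (pow_nonneg (by linarith) _) ?_ m
  have h1 : 1 - δ ≤ Real.exp (-δ) := by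
    have := Real.add_one_le_exp (-δ)
    linarith
  calc (1 - δ) ^ Dn ≤ Real.exp (-δ) ^ Dn := pow_le_pow_left₀ (by linarith) h1 Dn
    _ = Real.exp (-(δ * Dn)) := by rw [← Real.exp_nat_mul]; congr 1; ring
    _ ≤ Real.exp (-1) := Real.exp_le_exp.2 (by linarith)
    _ ≤ 1 / 2 := by
        rw [Real.exp_neg, inv_eq_one_div]
        have := Real.exp_one_gt_d9
        exact one_div_le_one_div_of_le (by norm_num) (by linarith)

/-- From a randomised table to a structure. -/
theorem forward {β C n k t s Dn : ℕ} {δ : ℝ} (hβ : 1 ≤ β) (ht : 16 ≤ t) (htk : t ≤ k)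
    (hkn : k ≤ n) (h64 : 64 * k ≤ t ^ 2) (hk : k * k ≤ 2 * (n * t)) (hδ0 : 0 ≤ δ) (hδ1 : δ ≤ 1)
    (hDδ : 1 ≤ δ * Dn) (hDn : Dn ≤ n) (h : HasRandTable β n k t (C * t) s δ) :
    ∃ S : ℕ, HasStructure (β + 4) (20 * C + 40) (n * (t / 16)) t S ∧
      S ≤ (4 * k / t + 17) ^ 2 * (2 * Nat.clog 2 n + 1) *
          (Dn * (2 * Nat.clog 2 n + 1)) * (s + 16 * n ^ 2) +
        3 * ((n * (t / 16)) / k * (n * (t / 16))) := by
  classical
  obtain ⟨Ω, _, P, Dr, hP0, hP1, hDr⟩ := h
  set N := n * (t / 16) with hN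
  set r := 4 * k / t + 17 with hr
  set M := 2 * Nat.clog 2 n + 1 with hM
  set M' := Dn * M with hM'
  have hDn0 : 0 < Dn := by
    rcases Nat.eq_zero_or_pos Dn with h0 | h0
    · subst h0
      norm_num at hDδ
    · exact h0
  have ht16 : 1 ≤ t / 16 := by omega
  have hn16 : 16 ≤ n := by omega
  have hnN : n ≤ N := Nat.le_mul_of_pos_right n ht16
  have hN0 : 0 < N := by omega
  have hNn : N ≤ n ^ 2 := by
    rw [sq]
    exact Nat.mul_le_mul_left _ (by omega)
  have hr0 : 0 < r := Nat.succ_pos _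
  have hM0 : 0 < M := Nat.succ_pos _
  have hM'0 : 0 < M' := Nat.mul_pos hDn0 hM0
  have hb0 : 0 < N / k + 1 := Nat.succ_pos _
  have hnclog : n * n ≤ 2 ^ (2 * Nat.clog 2 n) := by
    have h1 : n ≤ 2 ^ Nat.clog 2 n := Nat.le_pow_clog (by norm_num) n
    calc n * n ≤ 2 ^ Nat.clog 2 n * 2 ^ Nat.clog 2 n := Nat.mul_le_mul h1 h1
      _ = 2 ^ (2 * Nat.clog 2 n) := by rw [two_mul, pow_add]
  obtain ⟨ω, hω⟩ := tuples (n := n) (k := k) (t := t) (p := C * t) (M' := M') P hP0 hP1 Dr hδ1 hDr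
    (by
      have h1 : (n : ℝ) * n ≤ 2 ^ (2 * Nat.clog 2 n) := by exact_mod_cast hnclog
      calc (n : ℝ) * n * (1 - δ) ^ M' ≤ 2 ^ (2 * Nat.clog 2 n) * (1 / 2) ^ M := by
            have h2 := one_sub_pow_le hδ0 hδ1 hDδ M
            have h3 : 0 ≤ (1 - δ) ^ M' := pow_nonneg (by linarith) _
            gcongr
        _ = 1 / 2 := by
            rw [hM, pow_succ, ← mul_assoc, ← mul_pow]
            norm_num)
  set W := words (β + 4) N with hW
  have hW5 : (8 * N) ^ 5 ≤ W := pow_le_words (by omega)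
  have hWn : 32768 * n ^ 5 ≤ W := by
    calc 32768 * n ^ 5 ≤ 32768 * N ^ 5 := Nat.mul_le_mul_left _ (Nat.pow_le_pow_left hnN 5)
      _ = (8 * N) ^ 5 := by ring
      _ ≤ W := hW5
  have hrn : r ≤ 21 * n := by
    have h1 : 4 * k / t ≤ 4 * k := Nat.div_le_self _ _
    omega
  have hMn : M ≤ 3 * n := by
    have h1 : Nat.clog 2 n ≤ n := by
      refine Nat.clog_le_of_le_pow ?_
      exact Nat.lt_two_pow_self.le
    omega
  have hn2 : n ^ 2 ≤ n ^ 5 := Nat.pow_le_pow_right (by omega) (by norm_num)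
  have hM'n : M' ≤ W := by
    have h1 : M' ≤ n * (3 * n) := Nat.mul_le_mul hDn hMn
    have h2 : n * (3 * n) = 3 * n ^ 2 := by ring
    omega
  have hL : n * n + 1 ≤ W := by
    have h2 : n * n = n ^ 2 := by ring
    have h3 : 1 ≤ n ^ 5 := Nat.one_le_pow _ _ (by omega)
    omega
  have hX : r * M * n * k + 1 < W := by
    have h1 : r * M * n * k ≤ (21 * n) * (3 * n) * n * n := by gcongr
    have h2 : (21 * n) * (3 * n) * n * n + 1 < 32768 * n ^ 5 := by
      have h3 : n ^ 4 ≤ n ^ 5 := Nat.pow_le_pow_right (by omega) (by norm_num)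
      have h4 : 1 ≤ n ^ 4 := Nat.one_le_pow _ _ (by omega)
      have h5 : (21 * n) * (3 * n) * n * n = 63 * n ^ 4 := by ring
      rw [h5]
      omega
    omega
  have hn5 : n ≤ n ^ 5 := Nat.le_self_pow (by norm_num) n
  have hbN : (N / k + 1) * N < W := by
    have h1 : N / k ≤ N := Nat.div_le_self _ _
    have h2 : (N / k + 1) * N ≤ (N + N) * N := Nat.mul_le_mul_right _ (by omega)
    have h3 : (N + N) * N = 2 * N ^ 2 := by ring
    have h4 : N ^ 2 ≤ N ^ 5 := Nat.pow_le_pow_right hN0 (by norm_num)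
    have h5 : (8 * N) ^ 5 = 32768 * N ^ 5 := by ring
    have h6 : 1 ≤ N ^ 2 := Nat.one_le_pow _ _ hN0
    omega
  have hrows : 2 * (N / (t / 2)) + 1 ≤ n := by
    have h1 : N / (t / 2) * (t / 2) ≤ N := Nat.div_mul_le_self _ _
    have h2 : 8 * (N / (t / 2)) ≤ n := by
      have h3 : 8 * (N / (t / 2)) * (t / 2) ≤ n * (t / 2) := by
        calc 8 * (N / (t / 2)) * (t / 2) = 8 * (N / (t / 2) * (t / 2)) := by ring
          _ ≤ 8 * N := Nat.mul_le_mul_left _ h1
          _ = n * (8 * (t / 16)) := by rw [hN]; ring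
          _ ≤ n * (t / 2) := Nat.mul_le_mul_left _ (by omega)
      exact Nat.le_of_mul_le_mul_right h3 (by omega)
    omega
  obtain ⟨D, hD⟩ := full (b := N / k + 1) (X := r * M * n * k + 1) (W := W) (C := C) hN0 rfl
    (Nat.mul_pos hb0 hN0) (Nat.succ_pos _) (Nat.pow_pos (by norm_num)) hr0 hM0
    (Nat.succ_pos (n * n)) hM'0 (by omega)
    (by omega) htk hr (lt_of_le_of_lt hnclog (Nat.pow_lt_pow_right (by norm_num) (by omega)))
    h64 hk hrows (Nat.le_succ _) hX (words_le (by omega) hnN) hbN (by omega) (by omega) hL hM'n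
    (by omega) (by omega) (fun τ q => Dr (ω τ q)) hω
  obtain ⟨D', hD'⟩ := transport (by omega) le_rfl D hD
  refine ⟨_, ⟨D', hD'⟩, ?_⟩
  simp only [Fintype.card_sum, Fintype.card_prod, Fintype.card_fin]
  have e0 : n ^ 2 ≤ r ^ 2 * M * n ^ 2 := Nat.le_mul_of_pos_left _ (by positivity)
  have e2 : r * M * n * k ≤ r ^ 2 * M * n ^ 2 := by
    calc r * M * n * k ≤ r ^ 2 * M * n * n := by
          gcongr
          exact Nat.le_self_pow (by norm_num) r
      _ = r ^ 2 * M * n ^ 2 := by ring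
  have e3 : 1 ≤ n ^ 2 := Nat.one_le_pow _ _ (by omega)
  have e6 : r ^ 2 * M ≤ r ^ 2 * M * n ^ 2 := Nat.le_mul_of_pos_right _ (by omega)
  have e7 : n ^ 2 * r ≤ r ^ 2 * M * n ^ 2 := by
    calc n ^ 2 * r ≤ n ^ 2 * (r ^ 2 * M) := by
          refine Nat.mul_le_mul_left _ ?_
          exact (Nat.le_self_pow (by norm_num) r).trans (Nat.le_mul_of_pos_right _ hM0)
      _ = r ^ 2 * M * n ^ 2 := by ring
  have e8 : r ^ 2 * M * n ^ 2 ≤ r ^ 2 * M * M' * n ^ 2 := by
    calc r ^ 2 * M * n ^ 2 ≤ r ^ 2 * M * n ^ 2 * M' := Nat.le_mul_of_pos_right _ hM'0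
      _ = r ^ 2 * M * M' * n ^ 2 := by ring
  have e4 : N * 2 + (N * 2 + N + ((N / k + 1) * N * 2 + (N / k + 1) * N + (n * n * 2 +
      (r * (M * r) + (n * n * r + (r * (M * r) * M' * s +
        (r * (M * (n * (r * n))) * 2 + (r * M * n * k + 1)))))))) =
      8 * N + 3 * (N / k * N) + 2 * n ^ 2 + r ^ 2 * M + n ^ 2 * r + r ^ 2 * M * M' * s +
        2 * (r ^ 2 * M * n ^ 2) + r * M * n * k + 1 := by ring
  have e5 : r ^ 2 * M * M' * (s + 16 * n ^ 2) =
      r ^ 2 * M * M' * s + 16 * (r ^ 2 * M * M' * n ^ 2) := by ring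
  rw [e4, e5]
  omega

/-- From a structure to a table. -/
theorem backward {β C n k t S : ℕ} (hβ : 1 ≤ β) (hn : 1 ≤ n) (ht : 1 ≤ t)
    (h : HasStructure β C (n * (n + 1)) t S) : HasTable (2 * β) n k t (3 * C * t) S := by
  classical
  obtain ⟨N, hN⟩ : ∃ N, N = n * (n + 1) := ⟨_, rfl⟩
  rw [← hN] at h
  unfold HasStructure at h
  obtain ⟨W, hW⟩ : ∃ W, W = words β N := ⟨_, rfl⟩
  rw [← hW] at h
  obtain ⟨D, hD⟩ := h
  have h8 : 8 * N ≤ W := by rw [hW]; exact le_words hβ
  have hnN : n + 1 ≤ N := by rw [hN]; exact Nat.le_mul_of_pos_left _ hn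
  have hW0 : 0 < W := by omega
  have hWW : W ≤ words (2 * β) n := by
    rw [hW]
    unfold words
    refine Nat.pow_le_pow_right (by norm_num) ?_
    have h1 : Nat.clog 2 N ≤ 2 * Nat.clog 2 n + 1 := by
      refine Nat.clog_le_of_le_pow ?_
      have h2 : n ≤ 2 ^ Nat.clog 2 n := Nat.le_pow_clog (by norm_num) n
      calc N ≤ 2 * (n * n) := by rw [hN]; nlinarith
        _ ≤ 2 * (2 ^ Nat.clog 2 n * 2 ^ Nat.clog 2 n) :=
            Nat.mul_le_mul_left _ (Nat.mul_le_mul h2 h2)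
        _ = 2 ^ (2 * Nat.clog 2 n + 1) := by
            rw [pow_succ, two_mul (Nat.clog 2 n), pow_add]
            ring
    calc β * (Nat.clog 2 N + 3) ≤ β * (2 * (Nat.clog 2 n + 3)) :=
          Nat.mul_le_mul_left _ (by omega)
      _ = 2 * β * (Nat.clog 2 n + 3) := by ring
  have hWp : 0 < words (2 * β) n := by omega
  set z : Fin W := ⟨n, by omega⟩ with hz
  set em : Fin n → Fin W := fun y => ⟨y, by have := y.2; omega⟩ with hem
  have hemi : Function.Injective em := by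
    intro x y hxy
    simp only [hem, Fin.mk.injEq] at hxy
    exact Fin.ext hxy
  have hez : ∀ y, em y ≠ z := by
    intro y hy
    simp only [hem, hz, Fin.mk.injEq] at hy
    have := y.2
    omega
  set G : (Fin n → Finset (Fin n)) → Fin n → Finset (Fin W) :=
    fun F i => insert z ((F i).image em) with hG
  have hGc : ∀ F i, (G F i).card ≤ n + 1 := by
    intro F i
    refine (card_insert_le _ _).trans (Nat.succ_le_succ (card_image_le.trans ?_))
    exact (card_le_univ _).trans (by simp)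
  have hGs : ∀ F, ∑ i, (G F i).card ≤ N := by
    intro F
    calc ∑ i, (G F i).card ≤ ∑ i : Fin n, (n + 1) := sum_le_sum fun i _ => hGc F i
      _ = N := by simp [hN]
  set Fm : (Fin n → Finset (Fin n)) → Family N W := fun F =>
    { m := n + (N - ∑ i, (G F i).card)
      sets := Fin.append (G F) (fun _ => {z})
      nonempty := by
        intro i
        refine Fin.addCases (fun a => ?_) (fun a => ?_) i
        · rw [Fin.append_left]; exact insert_nonempty _ _
        · rw [Fin.append_right]; exact singleton_nonempty _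
      total := by
        rw [Fin.sum_univ_add]
        simp only [Fin.append_left, Fin.append_right, card_singleton, sum_const, card_univ,
          Fintype.card_fin, smul_eq_mul, mul_one]
        have := hGs F
        omega } with hFm
  refine ⟨⟨fun F c => md hWp (D.mem (Fm F) c : ℕ), fun i j =>
    ((D.query i j).embed id (fun w => md hW0 (w : ℕ))).bind fun R =>
      .out (univ.filter fun y => em y ∈ R)⟩, ?_⟩
  intro F _ i j hij
  obtain ⟨q1, q2⟩ := hD (Fm F) (Fin.castAdd _ i) (Fin.castAdd _ j)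
  have e1 : ∀ i : Fin n, (Fm F).sets (Fin.castAdd (N - ∑ i, (G F i).card) i) = G F i := by
    intro i
    show Fin.append (G F) (fun _ => {z}) (Fin.castAdd (N - ∑ i, (G F i).card) i) = G F i
    rw [Fin.append_left]
  rw [e1, e1] at q1 q2
  have e0 : ∀ c, md hW0 ((md hWp (D.mem (Fm F) c : ℕ) : Fin (words (2 * β) n)) : ℕ) =
      D.mem (Fm F) c := by
    intro c
    rw [md_val hWp (lt_of_lt_of_le (D.mem (Fm F) c).2 hWW)]
    exact md_fin hW0 _
  have r1 := run_embed id (fun w : Fin (words (2 * β) n) => md hW0 (w : ℕ))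
    (fun c => md hWp (D.mem (Fm F) c : ℕ)) (D.mem (Fm F)) e0 (D.query i j)
  have r2 := cost_embed id (fun w : Fin (words (2 * β) n) => md hW0 (w : ℕ))
    (fun c => md hWp (D.mem (Fm F) c : ℕ)) (D.mem (Fm F)) e0 (D.query i j)
  have hGG : ∀ y, em y ∈ G F i ∩ G F j ↔ y ∈ F i ∩ F j := by
    intro y
    simp only [hG, mem_inter, mem_insert, hez y, false_or, mem_image]
    constructor
    · rintro ⟨⟨a, ha, ha'⟩, ⟨b, hb, hb'⟩⟩
      rw [← hemi ha']
      exact ⟨ha, by rw [hemi (ha'.trans hb'.symm)]; exact hb⟩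
    · rintro ⟨h1, h2⟩
      exact ⟨⟨y, h1, rfl⟩, ⟨y, h2, rfl⟩⟩
  have hcard : (G F i ∩ G F j).card ≤ (F i ∩ F j).card + 1 := by
    have h1 : G F i ∩ G F j ⊆ insert z ((F i ∩ F j).image em) := by
      intro x hx
      rw [mem_insert]
      by_cases hxz : x = z
      · exact Or.inl hxz
      · right
        have h2 := (mem_inter.1 hx).1
        simp only [hG, mem_insert, hxz, false_or, mem_image] at h2
        obtain ⟨y, hy, rfl⟩ := h2
        exact mem_image.2 ⟨y, (hGG y).1 hx, rfl⟩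
    exact (card_le_card h1).trans ((card_insert_le _ _).trans (Nat.succ_le_succ card_image_le))
  constructor
  · simp only [run_bind, run_out]
    rw [r1]
    have q1' : (D.query i j).run (D.mem (Fm F)) = G F i ∩ G F j := q1
    rw [q1']
    ext y
    simp only [mem_filter, mem_univ, true_and]
    exact hGG y
  · simp only [cost_bind, cost_out, Nat.add_zero]
    rw [r2]
    refine q2.trans ?_
    calc C * (t + (G F i ∩ G F j).card) ≤ C * (3 * t) := Nat.mul_le_mul_left _ (by omega)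
      _ = 3 * C * t := by ring

end Pool.Agent.V8H41.TF
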