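import Pool.Agent.V8H41.TF.Defs

set_option autoImplicit false

namespace Pool.Agent.V8H41.TF

open Pool.Agent.N606.SI Finset

open Classical in
/-- every requirement is satisfied for one of `m` choices, for probabilities -/
theorem coverW {Ω α : Type} [Fintype Ω] (P : Ω → ℝ) (hP0 : ∀ ω, 0 ≤ P ω) (hP1 : ∑ ω, P ω = 1)
    (good : α → Ω → Prop) {δ : ℝ} (hδ : δ ≤ 1) :
    ∀ (m : ℕ) (Q : Finset α), (∀ d ∈ Q, δ ≤ ∑ ω, if good d ω then P ω else 0) →
      (Q.card : ℝ) * (1 - δ) ^ m < 1 → ∃ ω : Fin m → Ω, ∀ d ∈ Q, ∃ i, good d (ω i) := by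
  intro m
  obtain ⟨ω₁, -, hω₁⟩ : ∃ ω ∈ (univ : Finset Ω), 0 < P ω := by
    by_contra hcon
    push Not at hcon
    have h1 : ∑ ω, P ω ≤ 0 := sum_nonpos hcon
    rw [hP1] at h1
    linarith
  induction m with
  | zero =>
    intro Q _ hQ
    have hQ0 : Q.card < 1 := by
      rw [pow_zero, mul_one] at hQ
      exact_mod_cast hQ
    have : Q = ∅ := by
      rw [← card_eq_zero]; omega
    subst this
    exact ⟨fun _ => ω₁, fun d hd => by simp at hd⟩
  | succ m ih =>
    intro Q hgood hQ
    have hex : ∃ ω : Ω, ((Q.filter fun d => ¬ good d ω).card : ℝ) ≤ Q.card * (1 - δ) := by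
      by_contra hcon
      push Not at hcon
      have h1 : ∑ ω, P ω * ((Q.filter fun d => ¬ good d ω).card : ℝ) ≤ Q.card * (1 - δ) := by
        have h2 : ∀ ω, P ω * ((Q.filter fun d => ¬ good d ω).card : ℝ) =
            ∑ d ∈ Q, (P ω - if good d ω then P ω else 0) := by
          intro ω
          rw [card_filter]
          push_cast
          rw [mul_sum]
          refine sum_congr rfl fun d _ => ?_
          by_cases hg : good d ω <;> simp [hg]
        simp only [h2]
        rw [sum_comm]
        calc ∑ d ∈ Q, ∑ ω, (P ω - if good d ω then P ω else 0)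
            ≤ ∑ d ∈ Q, (1 - δ) := by
              refine sum_le_sum fun d hd => ?_
              rw [sum_sub_distrib, hP1]
              have := hgood d hd
              linarith
          _ = Q.card * (1 - δ) := by rw [sum_const, nsmul_eq_mul]
      have h3 : 0 < ∑ ω, P ω * (((Q.filter fun d => ¬ good d ω).card : ℝ) -
          Q.card * (1 - δ)) := by
        refine sum_pos' (fun ω _ => mul_nonneg (hP0 ω) (by have := hcon ω; linarith))
          ⟨ω₁, mem_univ _, mul_pos hω₁ (by have := hcon ω₁; linarith)⟩
      rw [sum_congr rfl fun ω _ => mul_sub _ _ _, sum_sub_distrib, ← sum_mul, hP1, one_mul] at h3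
      linarith
    obtain ⟨ω₀, h0⟩ := hex
    obtain ⟨ω, hω⟩ := ih (Q.filter fun d => ¬ good d ω₀)
      (fun d hd => hgood d (mem_filter.1 hd).1) (by
        refine lt_of_le_of_lt ?_ hQ
        rw [pow_succ, mul_comm ((1 - δ) ^ m), ← mul_assoc]
        have : 0 ≤ (1 - δ) ^ m := pow_nonneg (by linarith) m
        gcongr)
    refine ⟨Fin.cons ω₀ ω, ?_⟩
    intro d hd
    by_cases hb : good d ω₀
    · exact ⟨0, by simpa using hb⟩
    · obtain ⟨i, hi⟩ := hω d (mem_filter.2 ⟨hd, hb⟩)
      exact ⟨i.succ, by simpa using hi⟩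

open Classical in
/-- Few values of the random parameter suffice for each family, and they are taken from a list which
does not depend on the family. -/
theorem tuples {ι Ω : Type} [Fintype Ω] {n W k t p M' : ℕ} (P : Ω → ℝ) (hP0 : ∀ ω, 0 ≤ P ω)
    (hP1 : ∑ ω, P ω = 1) (D : Ω → Table ι n W) {δ : ℝ} (hδ1 : δ ≤ 1)
    (hD : ∀ F : Fin n → Finset (Fin n), (∀ i, (F i).card ≤ k) → ∀ i j : Fin n,
      (F i ∩ F j).card ≤ t → δ ≤ ∑ ω, if Right (D ω) F i j p then P ω else 0)
    (hM : (n : ℝ) * n * (1 - δ) ^ M' ≤ 1 / 2) :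
    ∃ ω : Fin (n * n + 1) → Fin M' → Ω, ∀ F : Fin n → Finset (Fin n), (∀ i, (F i).card ≤ k) →
      ∃ τ, ∀ i j : Fin n, (F i ∩ F j).card ≤ t → ∃ q, Right (D (ω τ q)) F i j p := by
  have hsum : ∑ x : Fin M' → Ω, ∏ i, P (x i) = 1 := by
    have h1 := prod_univ_sum (fun _ : Fin M' => (univ : Finset Ω)) (fun _ ω => P ω)
    rw [Fintype.piFinset_univ] at h1
    rw [← h1]
    simp [hP1]
  obtain ⟨ω, hω⟩ := coverW (Ω := Fin M' → Ω) (fun x => ∏ i, P (x i))
    (fun x => prod_nonneg fun i _ => hP0 _) hsum
    (fun (F : Fin n → Finset (Fin n)) x => ∀ i j : Fin n, (F i ∩ F j).card ≤ t →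
      ∃ q, Right (D (x q)) F i j p) (δ := 1 / 2) (by norm_num) (n * n + 1)
    (univ.filter fun F : Fin n → Finset (Fin n) => ∀ i, (F i).card ≤ k)
    (by
      intro F hF
      have hFk := (mem_filter.1 hF).2
      set g : (Fin M' → Ω) → Prop := fun x => ∀ i j : Fin n, (F i ∩ F j).card ≤ t →
        ∃ q, Right (D (x q)) F i j p with hg
      have h1 : ∑ x : Fin M' → Ω, (if g x then ∏ i, P (x i) else 0) =
          1 - ∑ x : Fin M' → Ω, (if g x then 0 else ∏ i, P (x i)) := by
        rw [eq_sub_iff_add_eq, ← sum_add_distrib, ← hsum]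
        refine sum_congr rfl fun x _ => ?_
        split_ifs <;> simp
      have h2 : ∑ x : Fin M' → Ω, (if g x then 0 else ∏ i, P (x i)) ≤
          ∑ d : Fin n × Fin n, (1 - δ) ^ M' := by
        calc ∑ x : Fin M' → Ω, (if g x then 0 else ∏ i, P (x i))
            ≤ ∑ x : Fin M' → Ω, ∑ d ∈ univ.filter
                (fun d : Fin n × Fin n => (F d.1 ∩ F d.2).card ≤ t),
                (if ∀ q, ¬ Right (D (x q)) F d.1 d.2 p then ∏ i, P (x i) else 0) := by
              refine sum_le_sum fun x _ => ?_
              have hx0 : 0 ≤ ∏ i, P (x i) := prod_nonneg fun i _ => hP0 _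
              have hnn : ∀ d : Fin n × Fin n, 0 ≤
                  (if ∀ q, ¬ Right (D (x q)) F d.1 d.2 p then ∏ i, P (x i) else 0) := by
                intro d; split_ifs
                · exact hx0
                · exact le_rfl
              by_cases hgx : g x
              · rw [if_pos hgx]
                exact sum_nonneg fun d _ => hnn d
              · rw [if_neg hgx]
                simp only [hg] at hgx
                push Not at hgx
                obtain ⟨i, j, hij, hq⟩ := hgx
                refine le_trans ?_ (single_le_sum (f := fun d : Fin n × Fin n =>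
                  (if ∀ q, ¬ Right (D (x q)) F d.1 d.2 p then ∏ i, P (x i) else 0))
                  (fun d _ => hnn d) (mem_filter.2 ⟨mem_univ (i, j), hij⟩))
                simp only
                rw [if_pos hq]
          _ = ∑ d ∈ univ.filter (fun d : Fin n × Fin n => (F d.1 ∩ F d.2).card ≤ t),
                ∑ x : Fin M' → Ω,
                  (if ∀ q, ¬ Right (D (x q)) F d.1 d.2 p then ∏ i, P (x i) else 0) := sum_comm
          _ ≤ ∑ d ∈ univ.filter (fun d : Fin n × Fin n => (F d.1 ∩ F d.2).card ≤ t),
                (1 - δ) ^ M' := by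
              refine sum_le_sum fun d hd => ?_
              have hd' := (mem_filter.1 hd).2
              have h3 : ∑ x : Fin M' → Ω,
                  (if ∀ q, ¬ Right (D (x q)) F d.1 d.2 p then ∏ i, P (x i) else 0) =
                  (∑ ω ∈ univ.filter (fun ω => ¬ Right (D ω) F d.1 d.2 p), P ω) ^ M' := by
                have h4 := prod_univ_sum
                  (fun _ : Fin M' => univ.filter (fun ω => ¬ Right (D ω) F d.1 d.2 p))
                  (fun _ ω => P ω)
                rw [prod_const, card_univ, Fintype.card_fin] at h4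
                rw [h4, ← sum_filter]
                refine sum_congr ?_ fun _ _ => rfl
                ext x
                simp only [mem_filter, mem_univ, true_and, Fintype.mem_piFinset]
              rw [h3]
              have h5 : ∑ ω ∈ univ.filter (fun ω => ¬ Right (D ω) F d.1 d.2 p), P ω ≤ 1 - δ := by
                have h6 := hD F hFk d.1 d.2 hd'
                rw [← sum_filter] at h6
                have h7 := sum_filter_add_sum_filter_not univ
                  (fun ω => Right (D ω) F d.1 d.2 p) P
                rw [hP1] at h7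
                linarith
              exact pow_le_pow_left₀ (sum_nonneg fun ω _ => hP0 ω) h5 M'
          _ ≤ ∑ d : Fin n × Fin n, (1 - δ) ^ M' :=
              sum_le_sum_of_subset_of_nonneg (subset_univ _) fun _ _ _ =>
                pow_nonneg (by linarith) _
      rw [sum_const, card_univ, Fintype.card_prod, Fintype.card_fin, nsmul_eq_mul] at h2
      push_cast at h2
      have h9 : 1 / 2 ≤ ∑ x : Fin M' → Ω, (if g x then ∏ i, P (x i) else 0) := by
        rw [h1]
        linarith
      refine h9.trans (le_of_eq (sum_congr rfl fun x _ => ?_))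
      by_cases hgx : g x
      · rw [if_pos hgx, if_pos hgx]
      · rw [if_neg hgx, if_neg hgx])
    (by
      have h1 : (univ.filter fun F : Fin n → Finset (Fin n) => ∀ i, (F i).card ≤ k).card ≤
          2 ^ (n * n) := by
        refine (card_filter_le _ _).trans (le_of_eq ?_)
        rw [card_univ, Fintype.card_fun, Fintype.card_finset, Fintype.card_fin, ← pow_mul]
      have h2 : ((univ.filter fun F : Fin n → Finset (Fin n) => ∀ i, (F i).card ≤ k).card : ℝ) ≤
          2 ^ (n * n) := by exact_mod_cast h1
      calc ((univ.filter fun F : Fin n → Finset (Fin n) => ∀ i, (F i).card ≤ k).card : ℝ) *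
            (1 - 1 / 2) ^ (n * n + 1) ≤ 2 ^ (n * n) * (1 - 1 / 2) ^ (n * n + 1) := by gcongr
        _ = 1 / 2 := by
            rw [pow_succ, ← mul_assoc, ← mul_pow]
            norm_num
        _ < 1 := by norm_num)
  refine ⟨ω, fun F hF => ?_⟩
  exact hω F (mem_filter.2 ⟨mem_univ _, hF⟩)

end Pool.Agent.V8H41.TF
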