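import Pool.Agent.V8H41.TF.Store
import Pool.Agent.V8H41.TF.Hash
import Pool.Agent.V8H41.TF.Rand

set_option autoImplicit false

namespace Pool.Agent.V8H41.TF

open Pool.Agent.N606.SI Finset Alg

theorem cost_unionToList {ι β γ : Type} [DecidableEq β] {W : ℕ} (mem : ι → Fin W) (s : Finset γ)
    (f : γ → Alg ι W (Finset β)) :
    (unionList (s.toList.map f)).cost mem = ∑ x ∈ s, (f x).cost mem := by
  rw [cost_unionList, List.map_map]
  exact Finset.sum_map_toList s _

theorem mem_run_unionToList {ι β γ : Type} [DecidableEq β] {W : ℕ} (mem : ι → Fin W)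
    (s : Finset γ) (f : γ → Alg ι W (Finset β)) (x : β) :
    x ∈ (unionList (s.toList.map f)).run mem ↔ ∃ y ∈ s, x ∈ (f y).run mem := by
  rw [mem_run_unionList]
  simp

section sets
variable {α : Type} [DecidableEq α] {r n : ℕ}

/-- the hash values of the elements of a part -/
def hs (A : Finset α) (g : α → Fin r × Fin n) (ρ : Fin r) : Finset (Fin n) :=
  (A.filter fun x => (g x).1 = ρ).image fun x => (g x).2

/-- the elements with a hash value -/
def bk (A : Finset α) (g : α → Fin r × Fin n) (q : Fin r × Fin n) : Finset α :=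
  A.filter fun x => g x = q

theorem card_hs_le (A : Finset α) (g : α → Fin r × Fin n) (ρ : Fin r) :
    (hs A g ρ).card ≤ A.card := card_image_le.trans (card_filter_le _ _)

theorem card_hs_inter (A B : Finset α) (g : α → Fin r × Fin n) (ρ : Fin r) :
    (hs A g ρ ∩ hs B g ρ).card ≤ inPart (A ∩ B) g ρ + coll A B g := by
  have h1 : hs A g ρ ∩ hs B g ρ ⊆ ((A ∩ B).filter fun x => (g x).1 = ρ).image (fun x => (g x).2) ∪
      ((A ×ˢ B).filter fun q => q.1 ≠ q.2 ∧ g q.1 = g q.2).image (fun q => (g q.1).2) := by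
    intro v hv
    rw [mem_inter] at hv
    simp only [hs, mem_image, mem_filter] at hv
    obtain ⟨⟨x, ⟨hx, hx1⟩, hx2⟩, ⟨y, ⟨hy, hy1⟩, hy2⟩⟩ := hv
    rw [mem_union]
    by_cases hxy : x = y
    · left
      subst hxy
      exact mem_image.2 ⟨x, mem_filter.2 ⟨mem_inter.2 ⟨hx, hy⟩, hx1⟩, hx2⟩
    · right
      refine mem_image.2 ⟨(x, y), mem_filter.2 ⟨mem_product.2 ⟨hx, hy⟩, hxy, ?_⟩, hx2⟩
      exact Prod.ext (hx1.trans hy1.symm) (hx2.trans hy2.symm)
  refine (card_le_card h1).trans ((card_union_le _ _).trans ?_)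
  exact Nat.add_le_add card_image_le card_image_le

/-- elements of `A` whose hash value is also one of an element of `B` -/
def hit (A B : Finset α) (g : α → Fin r × Fin n) : Finset α :=
  A.filter fun x => ∃ y ∈ B, g y = g x

theorem card_hit (A B : Finset α) (g : α → Fin r × Fin n) :
    (hit A B g).card ≤ (A ∩ B).card + coll A B g := by
  have h1 : hit A B g ⊆ (A ∩ B) ∪
      ((A ×ˢ B).filter fun q => q.1 ≠ q.2 ∧ g q.1 = g q.2).image Prod.fst := by
    intro x hx
    simp only [hit, mem_filter] at hx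
    obtain ⟨hx, y, hy, hxy⟩ := hx
    rw [mem_union]
    by_cases h : x = y
    · left
      subst h
      exact mem_inter.2 ⟨hx, hy⟩
    · right
      exact mem_image.2 ⟨(x, y), mem_filter.2 ⟨mem_product.2 ⟨hx, hy⟩, h, hxy.symm⟩, rfl⟩
  exact (card_le_card h1).trans ((card_union_le _ _).trans (Nat.add_le_add_left card_image_le _))

theorem sum_bk_le (A B : Finset α) (g : α → Fin r × Fin n) (P : Finset (Fin r)) :
    ∑ ρ ∈ P, ∑ v ∈ hs A g ρ ∩ hs B g ρ, (bk A g (ρ, v)).card ≤ (hit A B g).card := by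
  classical
  calc ∑ ρ ∈ P, ∑ v ∈ hs A g ρ ∩ hs B g ρ, (bk A g (ρ, v)).card
      ≤ ∑ ρ ∈ P, ∑ v ∈ hs A g ρ ∩ hs B g ρ, ((hit A B g).filter fun x => g x = (ρ, v)).card := by
        refine sum_le_sum fun ρ _ => sum_le_sum fun v hv => card_le_card ?_
        intro x hx
        simp only [bk, mem_filter] at hx
        rw [mem_inter] at hv
        have hv2 := hv.2
        simp only [hs, mem_image, mem_filter] at hv2
        obtain ⟨y, ⟨hy, hy1⟩, hy2⟩ := hv2
        simp only [hit, mem_filter]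
        refine ⟨⟨hx.1, y, hy, ?_⟩, hx.2⟩
        rw [hx.2]
        exact Prod.ext hy1 hy2
    _ ≤ ∑ ρ, ∑ v, ((hit A B g).filter fun x => g x = (ρ, v)).card := by
        refine (sum_le_sum_of_subset (subset_univ P)).trans (sum_le_sum fun ρ _ => ?_)
        exact sum_le_sum_of_subset (subset_univ _)
    _ = ∑ q : Fin r × Fin n, ((hit A B g).filter fun x => g x = q).card := by
        rw [Fintype.sum_prod_type]
    _ = (hit A B g).card :=
        (card_eq_sum_card_fiberwise (f := g) (t := univ) fun _ _ => mem_coe.2 (mem_univ _)).symm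

theorem sum_hs_le (A B : Finset α) (g : α → Fin r × Fin n) (P : Finset (Fin r)) :
    ∑ ρ ∈ P, (hs A g ρ ∩ hs B g ρ).card ≤ (hit A B g).card := by
  refine le_trans (sum_le_sum fun ρ _ => ?_) (sum_bk_le A B g P)
  rw [card_eq_sum_ones]
  refine sum_le_sum fun v hv => ?_
  rw [mem_inter] at hv
  have hv1 := hv.1
  simp only [hs, mem_image, mem_filter] at hv1
  obtain ⟨x, ⟨hx, hx1⟩, hx2⟩ := hv1
  refine card_pos.2 ⟨x, ?_⟩
  simp only [bk, mem_filter]
  exact ⟨hx, Prod.ext hx1 hx2⟩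

theorem coll_symm (A B : Finset α) (g : α → Fin r × Fin n) : coll A B g = coll B A g := by
  classical
  simp only [coll]
  refine card_bij (fun q _ => (q.2, q.1)) ?_ ?_ ?_
  · intro q hq
    simp only [mem_filter, mem_product] at hq ⊢
    exact ⟨⟨hq.1.2, hq.1.1⟩, hq.2.1.symm, hq.2.2.symm⟩
  · rintro ⟨a, b⟩ _ ⟨c, d⟩ _ h
    simp only [Prod.mk.injEq] at h ⊢
    exact ⟨h.2, h.1⟩
  · intro q hq
    simp only [mem_filter, mem_product] at hq
    refine ⟨(q.2, q.1), ?_, rfl⟩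
    simp only [mem_filter, mem_product]
    exact ⟨⟨hq.1.2, hq.1.1⟩, hq.2.1.symm, hq.2.2.symm⟩

end sets

/-- The cells of the structure for rows: for each pair of rows the number of parts and the number of
the hash function; the lists of random parameters; for each pair of rows and each part the place in
this list; the tables; the elements with given hash values. -/
abbrev CellR (n r M M' X : ℕ) (ι₀ : Type) : Type :=
  ((Fin n × Fin n) × Fin 2) ⊕ ((Fin r × Fin M × Fin r) ⊕ (((Fin n × Fin n) × Fin r) ⊕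
    ((((Fin r × Fin M × Fin r) × Fin M') × ι₀) ⊕
      SCell (Fin r × Fin M × Fin n × Fin r × Fin n) X)))

section query
variable {n r M M' L X W₀ W : ℕ} {ι₀ : Type}

/-- list the elements with the hash value `(ρ, v)` in both rows -/
noncomputable def both (hX : 0 < X) (R : Fin r) (m : Fin M) (a b : Fin n) (ρ : Fin r) (v : Fin n) :
    Alg (CellR n r M M' X ι₀) W (Finset (Fin W)) :=
  ((readSet hX (R, m, a, ρ, v)).embed (fun c => .inr (.inr (.inr (.inr c)))) id).bind fun x =>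
    ((readSet hX (R, m, b, ρ, v)).embed (fun c => .inr (.inr (.inr (.inr c)))) id).bind fun y =>
      .out (x ∩ y)

/-- list the common elements in the part `ρ` -/
noncomputable def part (hX : 0 < X) (hW₀ : 0 < W₀) (hL : 0 < L) (hM' : 0 < M')
    (Ds : Fin L → Fin M' → Table ι₀ n W₀) (R : Fin r) (m : Fin M)
    (a b : Fin n) (ρ : Fin r) : Alg (CellR n r M M' X ι₀) W (Finset (Fin W)) :=
  (probe (.inr (.inl (R, m, ρ)))).bind fun τ =>
  (probe (.inr (.inr (.inl ((a, b), ρ))))).bind fun q =>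
  (((Ds (md hL (τ : ℕ)) (md hM' (q : ℕ))).query a b).embed
    (fun c => .inr (.inr (.inr (.inl (((R, m, ρ), md hM' (q : ℕ)), c)))))
    (fun w => md hW₀ (w : ℕ))).bind fun V =>
      unionList (V.toList.map fun v => both hX R m a b ρ v)

/-- the query algorithm for two rows -/
noncomputable def queryR (hX : 0 < X) (hW₀ : 0 < W₀) (hr : 0 < r) (hM : 0 < M) (hL : 0 < L)
    (hM' : 0 < M') (Ds : Fin L → Fin M' → Table ι₀ n W₀) (a b : Fin n) :
    Alg (CellR n r M M' X ι₀) W (Finset (Fin W)) :=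
  (probe (.inl ((a, b), 0))).bind fun R => (probe (.inl ((a, b), 1))).bind fun m =>
    unionList (((univ : Finset (Fin r)).filter fun ρ : Fin r => (ρ : ℕ) < (R : ℕ)).toList.map
      fun ρ => part hX hW₀ hL hM' Ds (md hr R) (md hM m) a b ρ)

end query

theorem rows {ι₀ : Type} {n r M M' L X W₀ W k t p : ℕ} (hX : 0 < X) (hXW : X < W) (hW₀ : 0 < W₀)
    (hr : 0 < r) (hM : 0 < M) (hL : 0 < L) (hM' : 0 < M') (hWW : W₀ ≤ W) (hrW : r ≤ W)
    (hMW : M ≤ W) (hLW : L ≤ W) (hM'W : M' ≤ W)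
    (hXs : r * M * n * k ≤ X) (Ds : Fin L → Fin M' → Table ι₀ n W₀)
    (h₀ : ∀ F : Fin n → Finset (Fin n), (∀ i, (F i).card ≤ k) →
      ∃ τ, ∀ i j : Fin n, (F i ∩ F j).card ≤ t → ∃ q, Right (Ds τ q) F i j p)
    (A : Fin n → Finset (Fin W)) (hA : ∀ a, (A a).card ≤ k)
    (g : Fin r → Fin M → Fin W → Fin r × Fin n) (R : Fin n → Fin n → Fin r)
    (μ : Fin n → Fin n → Fin M)
    (h1 : ∀ a b, ∀ x ∈ A a ∩ A b, ((g (R a b) (μ a b) x).1 : ℕ) < R a b)
    (h2 : ∀ a b, 2 * coll (A a) (A b) (g (R a b) (μ a b)) ≤ t)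
    (h3 : ∀ a b ρ, 2 * inPart (A a ∩ A b) (g (R a b) (μ a b)) ρ ≤ t) :
    ∃ mem : CellR n r M M' X ι₀ → Fin W, ∀ a b,
      (queryR hX hW₀ hr hM hL hM' Ds a b).run mem = A a ∩ A b ∧
      (queryR hX hW₀ hr hM hL hM' Ds a b).cost mem ≤
        2 + R a b * (p + 2) + 6 * (A a ∩ A b).card + 3 * t := by
  classical
  have hW : 0 < W := by omega
  obtain ⟨ms, hms⟩ := exists_store (W := W) hX hXW
    (fun q : Fin r × Fin M × Fin n × Fin r × Fin n => bk (A q.2.2.1) (g q.1 q.2.1) q.2.2.2) (by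
      have e1 : ∀ (R' : Fin r) (m : Fin M) (a : Fin n),
          ∑ q : Fin r × Fin n, (bk (A a) (g R' m) q).card ≤ k := by
        intro R' m a
        refine le_trans (le_of_eq ?_) (hA a)
        exact (card_eq_sum_card_fiberwise (f := g R' m) (t := univ)
          fun _ _ => mem_coe.2 (mem_univ _)).symm
      calc ∑ q : Fin r × Fin M × Fin n × Fin r × Fin n,
            (bk (A q.2.2.1) (g q.1 q.2.1) q.2.2.2).card
          = ∑ R' : Fin r, ∑ m : Fin M, ∑ a : Fin n, ∑ q : Fin r × Fin n,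
              (bk (A a) (g R' m) q).card := by
            rw [Fintype.sum_prod_type]
            refine sum_congr rfl fun R' _ => ?_
            rw [Fintype.sum_prod_type]
            refine sum_congr rfl fun m _ => ?_
            rw [Fintype.sum_prod_type]
        _ ≤ ∑ R' : Fin r, ∑ m : Fin M, ∑ a : Fin n, k :=
            sum_le_sum fun R' _ => sum_le_sum fun m _ => sum_le_sum fun a _ => e1 R' m a
        _ = r * M * n * k := by simp; ring
        _ ≤ X := hXs)
  have hτ : ∀ d : Fin r × Fin M × Fin r, ∃ τ, ∀ a b : Fin n,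
      (hs (A a) (g d.1 d.2.1) d.2.2 ∩ hs (A b) (g d.1 d.2.1) d.2.2).card ≤ t →
        ∃ q, Right (Ds τ q) (fun a => hs (A a) (g d.1 d.2.1) d.2.2) a b p := fun d =>
    h₀ (fun a => hs (A a) (g d.1 d.2.1) d.2.2) fun a => (card_hs_le _ _ _).trans (hA a)
  choose τ hτ using hτ
  have hq : ∀ d : (Fin n × Fin n) × Fin r, ∃ q : Fin M',
      (hs (A d.1.1) (g (R d.1.1 d.1.2) (μ d.1.1 d.1.2)) d.2 ∩
        hs (A d.1.2) (g (R d.1.1 d.1.2) (μ d.1.1 d.1.2)) d.2).card ≤ t →
        Right (Ds (τ (R d.1.1 d.1.2, μ d.1.1 d.1.2, d.2)) q)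
          (fun a => hs (A a) (g (R d.1.1 d.1.2) (μ d.1.1 d.1.2)) d.2) d.1.1 d.1.2 p := by
    intro d
    by_cases hc : (hs (A d.1.1) (g (R d.1.1 d.1.2) (μ d.1.1 d.1.2)) d.2 ∩
        hs (A d.1.2) (g (R d.1.1 d.1.2) (μ d.1.1 d.1.2)) d.2).card ≤ t
    · obtain ⟨q, hq⟩ := hτ (R d.1.1 d.1.2, μ d.1.1 d.1.2, d.2) d.1.1 d.1.2 hc
      exact ⟨q, fun _ => hq⟩
    · exact ⟨⟨0, hM'⟩, fun h => absurd h hc⟩
  choose sd hsd using hq
  set mem : CellR n r M M' X ι₀ → Fin W := Sum.elim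
    (fun q => if q.2 = 0 then md hW (R q.1.1 q.1.2 : ℕ) else md hW (μ q.1.1 q.1.2 : ℕ))
    (Sum.elim (fun d => md hW (τ d : ℕ)) (Sum.elim (fun d => md hW (sd d : ℕ))
      (Sum.elim (fun q => md hW ((Ds (τ q.1.1) q.1.2).mem
        (fun a => hs (A a) (g q.1.1.1 q.1.1.2.1) q.1.1.2.2) q.2 : ℕ)) ms)))
    with hmem
  refine ⟨mem, ?_⟩
  intro a b
  have h10 : (1 : Fin 2) ≠ 0 := by decide
  have hR : mem (.inl ((a, b), 0)) = md hW (R a b : ℕ) := by simp [hmem]
  have hμ : mem (.inl ((a, b), 1)) = md hW (μ a b : ℕ) := by simp [hmem]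
  have hRv : (md hW (R a b : ℕ) : ℕ) = R a b := md_val hW ((R a b).2.trans_le hrW)
  have hμv : (md hW (μ a b : ℕ) : ℕ) = μ a b := md_val hW ((μ a b).2.trans_le hMW)
  have hRf : md hr ((md hW (R a b : ℕ) : Fin W) : ℕ) = R a b := by rw [hRv]; exact md_fin hr _
  have hμf : md hM ((md hW (μ a b : ℕ) : Fin W) : ℕ) = μ a b := by rw [hμv]; exact md_fin hM _
  have hRf0 : md hr (R a b : ℕ) = R a b := md_fin hr _
  set G := g (R a b) (μ a b) with hG
  set P := (univ : Finset (Fin r)).filter fun ρ : Fin r => (ρ : ℕ) < (R a b : ℕ) with hP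
  have hboth : ∀ ρ v, (both hX (R a b) (μ a b) a b ρ v : Alg (CellR n r M M' X ι₀) W _).run mem =
      bk (A a) G (ρ, v) ∩ bk (A b) G (ρ, v) ∧
      (both hX (R a b) (μ a b) a b ρ v : Alg (CellR n r M M' X ι₀) W _).cost mem =
        (2 + (bk (A a) G (ρ, v)).card) + (2 + (bk (A b) G (ρ, v)).card) := by
    intro ρ v
    have e0 : ∀ c, id (mem ((fun c => .inr (.inr (.inr (.inr c)))) c)) = ms c := fun c => rfl
    have e1 := run_embed (fun c => Sum.inr (Sum.inr (Sum.inr (Sum.inr c)))) id mem ms e0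
      (readSet hX (R a b, μ a b, a, ρ, v))
    have e2 := run_embed (fun c => Sum.inr (Sum.inr (Sum.inr (Sum.inr c)))) id mem ms e0
      (readSet hX (R a b, μ a b, b, ρ, v))
    have e3 := cost_embed (fun c => Sum.inr (Sum.inr (Sum.inr (Sum.inr c)))) id mem ms e0
      (readSet hX (R a b, μ a b, a, ρ, v))
    have e4 := cost_embed (fun c => Sum.inr (Sum.inr (Sum.inr (Sum.inr c)))) id mem ms e0
      (readSet hX (R a b, μ a b, b, ρ, v))
    constructor
    · simp only [both, run_bind, run_out, e1, e2, (hms _).1]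
      rfl
    · simp only [both, cost_bind, cost_out, e3, e4, (hms _).2]
      rfl
  have hpart : ∀ ρ, (∀ x, x ∈ (part hX hW₀ hL hM' Ds (R a b) (μ a b) a b ρ :
        Alg (CellR n r M M' X ι₀) W _).run mem ↔ ∃ v ∈ hs (A a) G ρ ∩ hs (A b) G ρ,
          x ∈ bk (A a) G (ρ, v) ∩ bk (A b) G (ρ, v)) ∧
      (part hX hW₀ hL hM' Ds (R a b) (μ a b) a b ρ : Alg (CellR n r M M' X ι₀) W _).cost mem ≤
        (p + 2) + ∑ v ∈ hs (A a) G ρ ∩ hs (A b) G ρ,
          ((2 + (bk (A a) G (ρ, v)).card) + (2 + (bk (A b) G (ρ, v)).card)) := by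
    intro ρ
    have hc : (hs (A a) G ρ ∩ hs (A b) G ρ).card ≤ t := by
      have e1 := card_hs_inter (A a) (A b) G ρ
      have e2 := h2 a b
      have e3 := h3 a b ρ
      rw [← hG] at e2 e3
      omega
    have c1 : mem (.inr (.inl (R a b, μ a b, ρ))) = md hW (τ (R a b, μ a b, ρ) : ℕ) := by
      simp only [hmem, Sum.elim_inr, Sum.elim_inl]
    have c2 : mem (.inr (.inr (.inl ((a, b), ρ)))) = md hW (sd ((a, b), ρ) : ℕ) := by
      simp only [hmem, Sum.elim_inr, Sum.elim_inl]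
    have c1' : md hL ((md hW (τ (R a b, μ a b, ρ) : ℕ) : Fin W) : ℕ) = τ (R a b, μ a b, ρ) := by
      rw [md_val hW ((τ (R a b, μ a b, ρ)).2.trans_le hLW)]
      exact md_fin hL _
    have c2' : md hM' ((md hW (sd ((a, b), ρ) : ℕ) : Fin W) : ℕ) = sd ((a, b), ρ) := by
      rw [md_val hW ((sd ((a, b), ρ)).2.trans_le hM'W)]
      exact md_fin hM' _
    have hRt := hsd ((a, b), ρ)
    simp only [← hG] at hRt
    obtain ⟨q1, q2⟩ := hRt hc
    have e0 : ∀ c, md hW₀ ((mem ((fun c =>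
        .inr (.inr (.inr (.inl (((R a b, μ a b, ρ), sd ((a, b), ρ)), c))))) c) : Fin W) : ℕ) =
        (Ds (τ (R a b, μ a b, ρ)) (sd ((a, b), ρ))).mem (fun a => hs (A a) G ρ) c := by
      intro c
      have : mem (.inr (.inr (.inr (.inl (((R a b, μ a b, ρ), sd ((a, b), ρ)), c))))) =
          md hW ((Ds (τ (R a b, μ a b, ρ)) (sd ((a, b), ρ))).mem
            (fun a => hs (A a) G ρ) c : ℕ) := by
        simp only [hmem, Sum.elim_inr, Sum.elim_inl, hG]
      simp only [this]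
      rw [md_val hW (lt_of_lt_of_le ((Ds (τ (R a b, μ a b, ρ)) (sd ((a, b), ρ))).mem
        (fun a => hs (A a) G ρ) c).2 hWW)]
      exact md_fin hW₀ _
    have e1 := run_embed (fun c =>
      Sum.inr (Sum.inr (Sum.inr (Sum.inl (((R a b, μ a b, ρ), sd ((a, b), ρ)), c)))))
      (fun w : Fin W => md hW₀ (w : ℕ)) mem _ e0
      ((Ds (τ (R a b, μ a b, ρ)) (sd ((a, b), ρ))).query a b)
    have e2 := cost_embed (fun c =>
      Sum.inr (Sum.inr (Sum.inr (Sum.inl (((R a b, μ a b, ρ), sd ((a, b), ρ)), c)))))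
      (fun w : Fin W => md hW₀ (w : ℕ)) mem _ e0
      ((Ds (τ (R a b, μ a b, ρ)) (sd ((a, b), ρ))).query a b)
    constructor
    · intro x
      simp only [part, run_bind, run_probe, c1, c2, c1', c2', e1, q1]
      rw [mem_run_unionToList]
      simp only [(hboth ρ _).1]
    · simp only [part, cost_bind, run_probe, cost_probe, c1, c2, c1', c2', e1, e2, q1]
      rw [cost_unionToList]
      simp only [(hboth ρ _).2]
      omega
  have hrun : (queryR hX hW₀ hr hM hL hM' Ds a b).run mem = A a ∩ A b := by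
    simp only [queryR, run_bind, run_probe, hR, hμ, hRf0, hμf, hRv]
    ext x
    rw [mem_run_unionToList]
    constructor
    · rintro ⟨ρ, -, hx⟩
      rw [(hpart ρ).1] at hx
      obtain ⟨v, -, hx⟩ := hx
      simp only [bk, mem_inter, mem_filter] at hx ⊢
      exact ⟨hx.1.1, hx.2.1⟩
    · intro hx
      have e1 := h1 a b x hx
      rw [mem_inter] at hx
      refine ⟨(G x).1, mem_filter.2 ⟨mem_univ _, e1⟩, ?_⟩
      rw [(hpart _).1]
      refine ⟨(G x).2, ?_, ?_⟩
      · rw [mem_inter]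
        constructor
        · exact mem_image.2 ⟨x, mem_filter.2 ⟨hx.1, rfl⟩, rfl⟩
        · exact mem_image.2 ⟨x, mem_filter.2 ⟨hx.2, rfl⟩, rfl⟩
      · simp only [bk, mem_inter, mem_filter, Prod.mk.eta, and_true]
        exact hx
  refine ⟨hrun, ?_⟩
  simp only [queryR, cost_bind, cost_probe, run_probe, hR, hμ, hRf0, hμf, hRv]
  rw [cost_unionToList, ← hP]
  have hPc : P.card ≤ R a b := by
    have e1 : P ⊆ (univ : Finset (Fin (R a b : ℕ))).image
        (Fin.castLE (R a b).2.le) := by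
      intro ρ hρ
      have e2 := (mem_filter.1 hρ).2
      exact mem_image.2 ⟨⟨ρ, e2⟩, mem_univ _, rfl⟩
    exact (card_le_card e1).trans (card_image_le.trans (by simp))
  have hs1 := sum_bk_le (A a) (A b) G P
  have hs2 := sum_bk_le (A b) (A a) G P
  have hs3 := sum_hs_le (A a) (A b) G P
  have hh1 := card_hit (A a) (A b) G
  have hh2 := card_hit (A b) (A a) G
  have hc := h2 a b
  rw [← hG] at hc
  have hcs := coll_symm (A a) (A b) G
  have hic : (A b ∩ A a).card = (A a ∩ A b).card := by rw [inter_comm]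
  have hs2' : ∑ ρ ∈ P, ∑ v ∈ hs (A a) G ρ ∩ hs (A b) G ρ, (bk (A b) G (ρ, v)).card ≤
      (hit (A b) (A a) G).card := by
    refine le_trans (le_of_eq ?_) hs2
    refine sum_congr rfl fun ρ _ => ?_
    rw [inter_comm]
  have htot : ∑ ρ ∈ P, (part hX hW₀ hL hM' Ds (R a b) (μ a b) a b ρ :
      Alg (CellR n r M M' X ι₀) W _).cost mem ≤ R a b * (p + 2) + (4 * ∑ ρ ∈ P,
        (hs (A a) G ρ ∩ hs (A b) G ρ).card + ∑ ρ ∈ P, ∑ v ∈ hs (A a) G ρ ∩ hs (A b) G ρ,
        (bk (A a) G (ρ, v)).card + ∑ ρ ∈ P, ∑ v ∈ hs (A a) G ρ ∩ hs (A b) G ρ,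
        (bk (A b) G (ρ, v)).card) := by
    calc ∑ ρ ∈ P, (part hX hW₀ hL hM' Ds (R a b) (μ a b) a b ρ :
        Alg (CellR n r M M' X ι₀) W _).cost mem
        ≤ ∑ ρ ∈ P, ((p + 2) + ∑ v ∈ hs (A a) G ρ ∩ hs (A b) G ρ,
          ((2 + (bk (A a) G (ρ, v)).card) + (2 + (bk (A b) G (ρ, v)).card))) :=
          sum_le_sum fun ρ _ => (hpart ρ).2
      _ = P.card * (p + 2) + (4 * ∑ ρ ∈ P, (hs (A a) G ρ ∩ hs (A b) G ρ).card +
          ∑ ρ ∈ P, ∑ v ∈ hs (A a) G ρ ∩ hs (A b) G ρ, (bk (A a) G (ρ, v)).card +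
          ∑ ρ ∈ P, ∑ v ∈ hs (A a) G ρ ∩ hs (A b) G ρ, (bk (A b) G (ρ, v)).card) := by
          rw [sum_add_distrib, sum_const, smul_eq_mul, mul_sum, ← sum_add_distrib,
            ← sum_add_distrib]
          congr 1
          refine sum_congr rfl fun ρ _ => ?_
          rw [sum_add_distrib, sum_add_distrib, sum_add_distrib, sum_const, smul_eq_mul]
          ring
      _ ≤ _ := by
          have := Nat.mul_le_mul_right (p + 2) hPc
          omega
  omega

end Pool.Agent.V8H41.TF
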