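import Pool.Agent.V8H41.TF.Defs

set_option autoImplicit false

namespace Pool.Agent.V8H41.TF

open Pool.Agent.N606.SI Finset Alg

/-- the cells of a store of sets: starting position and size for each set, and an array -/
abbrev SCell (κ : Type) (X : ℕ) : Type := (κ × Fin 2) ⊕ Fin X

/-- read a set -/
noncomputable def readSet {κ : Type} {X W : ℕ} (hX : 0 < X) (k : κ) :
    Alg (SCell κ X) W (Finset (Fin W)) :=
  (probe (.inl (k, 0))).bind fun s => (probe (.inl (k, 1))).bind fun l =>
    (readList ((List.range (l : ℕ)).map fun t => .inr (md hX ((s : ℕ) + t)))).bind fun ws =>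
      .out ws.toFinset

theorem exists_store {κ : Type} [Fintype κ] {X W : ℕ} (hX : 0 < X) (hXW : X < W)
    (f : κ → Finset (Fin W)) (hf : ∑ k, (f k).card ≤ X) :
    ∃ mem : SCell κ X → Fin W, ∀ k, (readSet hX k).run mem = f k ∧
      (readSet hX k).cost mem = 2 + (f k).card := by
  classical
  have hW : 0 < W := by omega
  set e : κ ≃ Fin (Fintype.card κ) := Fintype.equivFin κ with he
  set n : Fin (Fintype.card κ) → ℕ := fun i => (f (e.symm i)).card with hn
  have hsum : ∑ i, n i ≤ X := by
    refine le_trans (le_of_eq ?_) hf
    simp only [hn]
    exact Equiv.sum_comp e.symm fun k => (f k).card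
  obtain ⟨arr, harr⟩ := store (md hW 0) n fun i t =>
    if h : t < (f (e.symm i)).toList.length then (f (e.symm i)).toList[t] else md hW 0
  refine ⟨Sum.elim (fun x => if x.2 = 0 then md hW (start n (e x.1)) else md hW (f x.1).card)
    (fun y => arr y), ?_⟩
  intro k
  have h1 := start_add_le_total n (e k)
  have h2 : n (e k) = (f k).card := by simp only [hn, Equiv.symm_apply_apply]
  have hs : (md hW (start n (e k)) : ℕ) = start n (e k) := md_val hW (by omega)
  have hl : (md hW (f k).card : ℕ) = (f k).card := md_val hW (by omega)
  have h10 : (1 : Fin 2) ≠ 0 := by decide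
  have key : ((List.range (f k).card).map fun t => arr (md hX (start n (e k) + t) : ℕ)) =
      (f k).toList := by
    have h3 := range_map (f k).toList (fun t => arr (md hX (start n (e k) + t) : ℕ)) (by
      intro t ht
      have ht' : t < (f k).card := by rwa [length_toList] at ht
      rw [md_val hX (by omega)]
      rw [harr (e k) t (by omega)]
      have h4 : e.symm (e k) = k := e.symm_apply_apply k
      simp only [h4, ht, dif_pos])
    rwa [length_toList] at h3
  constructor
  · simp only [readSet, run_bind, run_probe, run_readList, run_out, Sum.elim_inl, h10,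
      if_true, if_false, hs, hl, List.map_map]
    have h5 : ((List.range (f k).card).map ((Sum.elim (fun x : κ × Fin 2 =>
        if x.2 = 0 then md hW (start n (e x.1)) else md hW (f x.1).card) fun y : Fin X => arr y) ∘
        fun t => Sum.inr (md hX (start n (e k) + t)))) = (f k).toList := key
    rw [h5]
    simp
  · simp only [readSet, cost_bind, cost_probe, run_probe, cost_readList, cost_out, Sum.elim_inl,
      h10, if_true, if_false, hs, hl, List.length_map, List.length_range]
    omega

end Pool.Agent.V8H41.TF
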